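import Pool.Agent.X297.CM.Ext

/-!
# The generalised Hodge conjecture for all powers of a variety of CM type follows from its case for
# finitely many powers
-/

open CategoryTheory AlgebraicGeometry Filter Topology

universe u v w

namespace Pool.Agent.X297.CM

section Split

/-- Splitting a word. -/
lemma exists_split {b n : ℕ} (x : Fin (n + 1) → Fin b) (m : Fin b → ℕ)
    (hm : ∀ j, m j ≤ (Finset.univ.filter fun i => x i = j).card) {a c : ℕ}
    (ha : ∑ j, m j = a + 1) (hn : a + 1 + c = n) :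
    ∃ (σ : Fin (a + 1 + (c + 1)) ≃ Fin (n + 1)),
      (∀ f : Fin b → ℕ, ∑ i : Fin (a + 1), f (x (σ (Fin.castAdd (c + 1) i))) = ∑ j, m j * f j) ∧
      ∀ f : Fin b → ℕ, ∑ i : Fin (a + 1), f (x (σ (Fin.castAdd (c + 1) i))) +
        ∑ i : Fin (c + 1), f (x (σ (Fin.natAdd (a + 1) i))) = ∑ i, f (x i) := by
  classical
  choose t ht1 ht2 using fun j => Finset.exists_subset_card_eq (hm j)
  set S : Finset (Fin (n + 1)) := Finset.univ.filter fun i => i ∈ t (x i) with hS
  have hfib : ∀ j, (S.filter fun i => x i = j) = t j := by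
    intro j
    ext i
    simp only [hS, Finset.mem_filter, Finset.mem_univ, true_and]
    constructor
    · rintro ⟨h1, rfl⟩
      exact h1
    · intro h
      have h1 := (Finset.mem_filter.1 (ht1 j h)).2
      exact ⟨by rw [h1]; exact h, h1⟩
  have hsum : ∀ f : Fin b → ℕ, ∑ i ∈ S, f (x i) = ∑ j, m j * f j := by
    intro f
    rw [← Finset.sum_fiberwise S x]
    refine Finset.sum_congr rfl fun j _ => ?_
    rw [hfib, ← ht2 j, ← smul_eq_mul, ← Finset.sum_const]
    refine Finset.sum_congr rfl fun i hi => ?_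
    rw [(Finset.mem_filter.1 (ht1 j hi)).2]
  have hcard : S.card = a + 1 := by
    have h1 := hsum fun _ => 1
    simp only [mul_one] at h1
    rw [← Finset.card_eq_sum_ones, ha] at h1
    exact h1
  have hcard' : Sᶜ.card = c + 1 := by
    rw [Finset.card_compl, Fintype.card_fin, hcard]
    omega
  refine ⟨finSumFinEquiv.symm.trans (finSumEquivOfFinset hcard hcard'), fun f => ?_, fun f => ?_⟩
  · rw [← hsum f, ← Finset.sum_coe_sort S, ← (S.orderIsoOfFin hcard).toEquiv.sum_comp]
    refine Finset.sum_congr rfl fun i _ => ?_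
    rw [Equiv.trans_apply, finSumFinEquiv_symm_apply_castAdd, finSumEquivOfFinset_inl]
    rfl
  · rw [← (finSumFinEquiv.symm.trans (finSumEquivOfFinset hcard hcard')).sum_comp
      (fun i => f (x i))]
    exact (Fin.sum_univ_add (a := a + 1) (b := c + 1) fun i =>
      f (x ((finSumFinEquiv.symm.trans (finSumEquivOfFinset hcard hcard')) i))).symm

end Split

/-- The combinatorial splitting. -/
lemma exists_numbers {b A n c : ℕ} {R : Set (Fin b → ℕ)} (hR : ∀ r ∈ R, ∀ j, r j ≤ A)
    (hne : R.Nonempty) (x : Fin (n + 1) → Fin b) (hx : ∀ r ∈ R, c ≤ ∑ i, r (x i)) :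
    ∃ (m : Fin b → ℕ) (c' : ℕ), m ≠ 0 ∧
      (∀ j, m j ≤ (Finset.univ.filter fun i => x i = j).card) ∧ c' ≤ c ∧
      (∀ r ∈ R, c' ≤ ∑ j, m j * r j) ∧ (∀ r ∈ R, c - c' + ∑ j, m j * r j ≤ ∑ i, r (x i)) ∧
      ∑ j, m j ≤ powersBound b A := by
  classical
  set T : Set (Fin (b + 1) → ℤ) := {s | (∃ i, s = Pi.single i 1) ∨
    ∃ r ∈ R, s = Fin.cons (-1) fun j => (r j : ℤ)} with hT
  have hTA : ∀ s ∈ T, ∀ i, |s i| ≤ (A + 1 : ℕ) := by
    rintro s (⟨i, rfl⟩ | ⟨r, hr, rfl⟩) j
    · by_cases h : j = i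
      · subst h
        rw [Pi.single_eq_same, abs_one]
        push_cast
        omega
      · rw [Pi.single_eq_of_ne h, abs_zero]
        positivity
    · refine Fin.cases ?_ (fun j => ?_) j
      · rw [Fin.cons_zero, abs_neg, abs_one]
        push_cast
        omega
      · rw [Fin.cons_succ, Nat.abs_cast]
        have := hR r hr j
        exact_mod_cast this.trans (Nat.le_succ _)
  have hxsum : ∀ r : Fin b → ℕ, ∑ i, r (x i) =
      ∑ j, (Finset.univ.filter fun i => x i = j).card * r j := by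
    intro r
    rw [← Finset.sum_fiberwise Finset.univ x]
    refine Finset.sum_congr rfl fun j _ => ?_
    rw [← smul_eq_mul, ← Finset.sum_const]
    refine Finset.sum_congr rfl fun i hi => ?_
    rw [(Finset.mem_filter.1 hi).2]
  set e : Fin (b + 1) → ℕ := Fin.cons c fun j => (Finset.univ.filter fun i => x i = j).card with he
  have hev : ∀ (r : Fin b → ℕ) (c₀ : ℕ) (m : Fin b → ℕ),
      ∑ i, (Fin.cons (-1) (fun j => (r j : ℤ)) : Fin (b + 1) → ℤ) i *
        (((Fin.cons c₀ m : Fin (b + 1) → ℕ) i : ℕ) : ℤ) = (∑ j, m j * r j : ℕ) - (c₀ : ℤ) := by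
    intro r c₀ m
    rw [Fin.sum_univ_succ]
    simp only [Fin.cons_zero, Fin.cons_succ]
    push_cast
    rw [Finset.sum_congr rfl fun j _ => mul_comm (m j : ℤ) (r j : ℤ)]
    ring
  have hsingle : ∀ (i : Fin (b + 1)) (m : Fin (b + 1) → ℕ),
      0 ≤ ∑ l, (Pi.single i 1 : Fin (b + 1) → ℤ) l * (m l : ℤ) := by
    intro i m
    refine Finset.sum_nonneg fun l _ => ?_
    by_cases h : l = i
    · subst h
      rw [Pi.single_eq_same, one_mul]
      positivity
    · rw [Pi.single_eq_of_ne h, zero_mul]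
  have hcone : e ∈ Cone.pts T := by
    rintro s (⟨i, rfl⟩ | ⟨r, hr, rfl⟩)
    · exact hsingle i e
    · rw [he, hev, ← hxsum, sub_nonneg]
      exact_mod_cast hx r hr
  have he0 : e ≠ 0 := by
    intro h
    have h1 := congrFun h (Fin.succ (x 0))
    rw [he, Fin.cons_succ, Pi.zero_apply, Finset.card_eq_zero] at h1
    have h2 : (0 : Fin (n + 1)) ∈ Finset.univ.filter fun i => x i = x 0 :=
      Finset.mem_filter.2 ⟨Finset.mem_univ _, rfl⟩
    rw [h1] at h2
    exact absurd h2 (Finset.notMem_empty _)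
  obtain ⟨m, hm, hm0, hme, hmsub, hmb⟩ := Cone.exists_small_le (A := A + 1) (by omega) hTA
    (fun i => Or.inl ⟨i, rfl⟩) hcone he0
  have hmcons : m = Fin.cons (m 0) fun j => m j.succ := (Fin.cons_self_tail m).symm
  have hc' : m 0 ≤ c := hme 0
  have hmr : ∀ r ∈ R, m 0 ≤ ∑ j, m (Fin.succ j) * r j := by
    intro r hr
    have h1 := hm _ (Or.inr ⟨r, hr, rfl⟩)
    rw [hmcons, hev, sub_nonneg] at h1
    exact_mod_cast h1
  refine ⟨fun j => m j.succ, m 0, ?_, fun j => hme j.succ, hc', hmr, ?_, ?_⟩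
  · intro h
    apply hm0
    obtain ⟨r, hr⟩ := hne
    have h1 := hmr r hr
    have h2 : ∀ j : Fin b, m j.succ = 0 := fun j => congrFun h j
    have h3 : ∑ j, m (Fin.succ j) * r j = 0 :=
      Finset.sum_eq_zero fun j _ => by rw [h2, zero_mul]
    funext i
    refine Fin.cases ?_ (fun j => h2 j) i
    rw [Pi.zero_apply]
    omega
  · intro r hr
    have h1 := hmsub _ (Or.inr ⟨r, hr, rfl⟩)
    have h2 : e - m = Fin.cons (c - m 0) fun j =>
        (Finset.univ.filter fun i => x i = j).card - m j.succ := by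
      funext i
      refine Fin.cases ?_ (fun j => ?_) i
      · rw [Pi.sub_apply, Fin.cons_zero, he, Fin.cons_zero]
      · rw [Pi.sub_apply, Fin.cons_succ, he, Fin.cons_succ]
    rw [h2, hev, sub_nonneg] at h1
    have h3 : c - m 0 ≤ ∑ j, ((Finset.univ.filter fun i => x i = j).card - m j.succ) * r j := by
      exact_mod_cast h1
    have h4 : ∑ j, ((Finset.univ.filter fun i => x i = j).card - m j.succ) * r j +
        ∑ j, m (Fin.succ j) * r j = ∑ i, r (x i) := by
      rw [hxsum, ← Finset.sum_add_distrib]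
      refine Finset.sum_congr rfl fun j _ => ?_
      rw [← add_mul]
      congr 1
      have h7 : m j.succ ≤ (Finset.univ.filter fun i => x i = j).card := hme j.succ
      omega
    change c - m 0 + ∑ j, m (Fin.succ j) * r j ≤ ∑ i, r (x i)
    omega
  · refine (Finset.sum_le_sum fun j _ => hmb (Fin.succ j)).trans ?_
    rw [Finset.sum_const, Finset.card_univ, Fintype.card_fin, smul_eq_mul]
    exact le_rfl

open Pool.Agent.H914 Pool.Agent.H914.VarClass Pool.Agent.H914.VarClass.Obj
  Pool.Agent.H914.WeilCohomology Pool.Agent.H281R3.HT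
open Pool.Agent.Y129 (pw pj word exists_word_basis word_succ permHom permHom_mul permHom_one
  permRep_word permRep)

variable {k : Type u} [Field k] {𝒱 : VarClass k} {ops : CycleOps 𝒱}
  {W : WeilCohomology.{u, v} ops} {Γ : Type w} [Group Γ] {X Y Z : 𝒱.Obj}
  {D : Decomposition W} {A : CoeffAction W Γ}

/-- The types are at most the dimension. -/
lemma Decomposition.type_le (D : Decomposition W) {p q : ℕ} {x : W.H X} (hx : x ∈ D.hd X p q)
    (hx0 : x ≠ 0) : p ≤ X.dim ∧ q ≤ X.dim := by
  by_contra hcon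
  apply hx0
  apply W.nondeg
  intro y
  refine D.ind (p := fun y => W.tr X (x * y) = 0) ?_ ?_ y
  · intro a b y hy
    refine D.tr_zero (D.mul hx hy) fun h => hcon ?_
    omega
  · intro y z hy hz
    rw [mul_add, map_add, hy, hz, add_zero]

lemma word_coniv_all {b : ℕ} (B : TB D A X (Fin b))
    (h : ∀ m < powersBound b X.dim, ∀ c, GHC D A (pw X m) c) :
    ∀ (n : ℕ) (x : Fin (n + 1) → Fin b) (c : ℕ),
      (∀ s, c ≤ ∑ i, (B.t (x i) s).1 ∧ c ≤ ∑ i, (B.t (x i) s).2) →
      word B.v n x ∈ coniv W (pw X n) c := by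
  classical
  have hdeg : ∀ i, ∃ d, B.v i ∈ W.gr X d := fun i => by
    have h1 := D.le_gr X _ _ (B.mem i 1)
    rw [A.one] at h1
    exact ⟨_, h1⟩
  have hdegw : ∀ n (x : Fin (n + 1) → Fin b), ∃ d, word B.v n x ∈ W.gr (pw X n) d :=
    fun n x => by
      have h1 := D.le_gr _ _ _ (B.word_mem n x 1)
      rw [A.one] at h1
      exact ⟨_, h1⟩
  intro n
  induction n using Nat.strong_induction_on with
  | _ n ih =>
    intro x c hx
    by_cases hn : n < powersBound b X.dim
    · refine h n hn c _ (isSubHodge_Uc _ c) (Submodule.subset_span fun s => ?_)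
      exact ⟨_, _, (hx s).1, (hx s).2, B.word_mem n x s⟩
    set R : Set (Fin b → ℕ) := {r | ∃ s, r = (fun j => (B.t j s).1) ∨ r = fun j => (B.t j s).2}
      with hR
    have hRA : ∀ r ∈ R, ∀ j, r j ≤ X.dim := by
      rintro r ⟨s, rfl | rfl⟩ j
      · exact (D.type_le (B.mem j s) (B.act_ne j s)).1
      · exact (D.type_le (B.mem j s) (B.act_ne j s)).2
    obtain ⟨m, c', hm0, hm1, hc', hm2, hm3, hm4⟩ := exists_numbers (c := c) hRA
      ⟨_, 1, Or.inl rfl⟩ x (by
        rintro r ⟨s, rfl | rfl⟩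
        · exact (hx s).1
        · exact (hx s).2)
    have hpos : 0 < ∑ j, m j := by
      rw [Nat.pos_iff_ne_zero]
      intro h0
      apply hm0
      funext j
      exact (Finset.sum_eq_zero_iff.1 h0) j (Finset.mem_univ j)
    obtain ⟨a, ha⟩ : ∃ a, ∑ j, m j = a + 1 := ⟨∑ j, m j - 1, by omega⟩
    obtain ⟨e, rfl⟩ : ∃ e, n = a + 1 + e := ⟨n - (a + 1), by omega⟩
    obtain ⟨σ, hσ1, hσ2⟩ := exists_split x m hm1 ha rfl
    set x₁ : Fin (a + 1) → Fin b := fun i => x (σ (Fin.castAdd (e + 1) i)) with hx₁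
    set x₂ : Fin (e + 1) → Fin b := fun i => x (σ (Fin.natAdd (a + 1) i)) with hx₂
    have h1 : word B.v a x₁ ∈ coniv W (pw X a) c' := by
      refine ih a (by omega) x₁ c' fun s => ⟨?_, ?_⟩
      · rw [hσ1 fun j => (B.t j s).1]
        exact hm2 _ ⟨s, Or.inl rfl⟩
      · rw [hσ1 fun j => (B.t j s).2]
        exact hm2 _ ⟨s, Or.inr rfl⟩
    have h2 : word B.v e x₂ ∈ coniv W (pw X e) (c - c') := by
      refine ih e (by omega) x₂ (c - c') fun s => ⟨?_, ?_⟩
      · have h3 := hσ2 fun j => (B.t j s).1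
        have h4 := hm3 _ ⟨s, Or.inl rfl⟩
        have h5 := hσ1 fun j => (B.t j s).1
        change c - c' ≤ ∑ i : Fin (e + 1), (B.t (x (σ (Fin.natAdd (a + 1) i))) s).1
        omega
      · have h3 := hσ2 fun j => (B.t j s).2
        have h4 := hm3 _ ⟨s, Or.inr rfl⟩
        have h5 := hσ1 fun j => (B.t j s).2
        change c - c' ≤ ∑ i : Fin (e + 1), (B.t (x (σ (Fin.natAdd (a + 1) i))) s).2
        omega
    have h3 := word_append_coniv B.v hdegw h1 h2
    rw [Nat.add_sub_cancel' hc'] at h3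
    have h4 : (Fin.append x₁ x₂ : Fin (a + 1 + (e + 1)) → Fin b) = fun i => x (σ i) := by
      funext i
      refine Fin.addCases (fun i => ?_) (fun j => ?_) i
      · rw [Fin.append_left]
      · rw [Fin.append_right]
    rw [h4] at h3
    have h5 : permRep W X (a + 1 + e) σ (word B.v (a + 1 + e) fun i => x (σ i)) ∈
        coniv W (pw X (a + 1 + e)) c := coniv_perm (n := a + 1 + e) σ h3
    rcases permRep_word hdeg (a + 1 + e) σ (fun j => x (σ j)) with h7 | h7
    · rw [h7] at h5
      convert h5 using 2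
      funext i
      exact (congrArg x (σ.apply_symm_apply i)).symm
    · rw [h7] at h5
      have h8 := Submodule.neg_mem _ h5
      rw [neg_neg] at h8
      convert h8 using 2
      funext i
      exact (congrArg x (σ.apply_symm_apply i)).symm

/-- **The generalised Hodge conjecture for all powers of a variety of CM type follows from its case
for an explicit number of powers.** -/
theorem ghc_all (hX : IsCMType D A X)
    (h : ∀ m < powersBound (Module.finrank W.K (W.H X)) X.dim, ∀ c, GHC D A (pw X m) c)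
    (n c : ℕ) : GHC D A (pw X n) c := by
  obtain ⟨B⟩ := exists_TB hX
  intro U hU x hx
  rw [← (B.words n).v.sum_repr x]
  refine Submodule.sum_mem _ fun y _ => ?_
  by_cases hy : (B.words n).v.repr x y = 0
  · rw [hy, zero_smul]
    exact Submodule.zero_mem _
  · refine Submodule.smul_mem _ _ ?_
    have h1 : (B.words n).v y = word B.v n y := (exists_word_basis B.v n).choose_spec y
    rw [h1]
    exact word_coniv_all B h n y c fun s => (B.words n).level hU hx hy s

end Pool.Agent.X297.CM
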