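import Pool.Agent.X297.CM.Coniv

/-!
# The generalised Hodge conjecture for the powers of a variety whose cohomology is generated by
# elements of few types
-/

open CategoryTheory AlgebraicGeometry Filter Topology

universe u v w

namespace Pool.Agent.X297.CM

open Pool.Agent.H914 Pool.Agent.H914.VarClass Pool.Agent.H914.VarClass.Obj
  Pool.Agent.H914.WeilCohomology Pool.Agent.H281R3.HT
open Pool.Agent.Y129 (pw pj permHom permHom_mul permHom_one liftN_pj permRep prod_perm pj_zero
  pj_succ)
open Pool.Agent.Y133.Half (PH PH.of PH.map PH.push PH.comm)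

variable {k : Type u} [Field k] {𝒱 : VarClass k} {ops : CycleOps 𝒱}
  {W : WeilCohomology.{u, v} ops} {Γ : Type w} [Group Γ] {X Y Z : 𝒱.Obj}
  {D : Decomposition W} {A : CoeffAction W Γ}

/-- A letter: an element of a type in `F`, and the number of a factor. -/
structure Letter (D : Decomposition W) (A : CoeffAction W Γ) (X : 𝒱.Obj)
    (F : Finset (Γ → ℕ × ℕ)) (n : ℕ) where
  f : Γ → ℕ × ℕ
  hf : f ∈ F
  x : W.H X
  hx : IsOf D A X f x
  i : Fin (n + 1)

variable {F : Finset (Γ → ℕ × ℕ)} {n : ℕ}

/-- The pull-back. -/
noncomputable def Letter.val (a : Letter D A X F n) : W.H (pw X n) := W.map (pj X n a.i) a.x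

/-- The product of the pull-backs. -/
noncomputable def pr (l : List (Letter D A X F n)) : W.H (pw X n) := (l.map Letter.val).prod

lemma pr_nil : pr ([] : List (Letter D A X F n)) = 1 := rfl

lemma pr_cons (a : Letter D A X F n) (l : List (Letter D A X F n)) :
    pr (a :: l) = a.val * pr l := by
  simp only [pr, List.map_cons, List.prod_cons]

lemma Letter.mem (a : Letter D A X F n) (s : Γ) :
    A.act s (pw X n) a.val ∈ D.hd (pw X n) (a.f s).1 (a.f s).2 := by
  rw [Letter.val, A.map]
  exact D.map _ (a.hx s)

lemma act_one_eq (s : Γ) (Z : 𝒱.Obj) : A.act s Z 1 = 1 := by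
  rw [← W.cl_fund Z]
  exact A.act_cl s Z _

lemma pr_mem (l : List (Letter D A X F n)) (s : Γ) :
    A.act s (pw X n) (pr l) ∈ D.hd (pw X n) (l.map fun a => (a.f s).1).sum
      (l.map fun a => (a.f s).2).sum := by
  induction l with
  | nil =>
    have h1 : (1 : W.H (pw X n)) ∈ D.hd (pw X n) 0 0 := by
      rw [← W.cl_fund]
      exact D.cl (pw X n).V.fundCycle_mem
    rw [pr_nil, act_one_eq]
    exact h1
  | cons a l ih =>
    rw [pr_cons, A.mul]
    simp only [List.map_cons, List.sum_cons]
    exact D.mul (a.mem s) ih

lemma Letter.gr (a : Letter D A X F n) : ∃ d, a.val ∈ W.gr (pw X n) d := by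
  have h1 := D.le_gr _ _ _ (a.mem 1)
  rw [A.one] at h1
  exact ⟨_, h1⟩

lemma pr_perm {l l' : List (Letter D A X F n)} (h : l.Perm l') : pr l = pr l' ∨ pr l = - pr l' := by
  apply prod_perm (h.map _)
  intro x hx y hy
  obtain ⟨a, -, rfl⟩ := List.mem_map.1 hx
  obtain ⟨a', -, rfl⟩ := List.mem_map.1 hy
  obtain ⟨d, hd⟩ := a.gr
  obtain ⟨d', hd'⟩ := a'.gr
  rw [W.comm hd hd']
  rcases neg_one_pow_eq_or W.K (d * d') with h | h
  · left; rw [h, one_smul]
  · right; rw [h, neg_one_smul]

lemma pr_coniv_perm {l l' : List (Letter D A X F n)} (h : l.Perm l') {c : ℕ}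
    (hl : pr l' ∈ coniv W (pw X n) c) : pr l ∈ coniv W (pw X n) c := by
  rcases pr_perm h with h | h
  · rw [h]; exact hl
  · rw [h]; exact Submodule.neg_mem _ hl

lemma pr_coniv_cons {a : Letter D A X F n} {l : List (Letter D A X F n)} {c : ℕ}
    (hl : pr l ∈ coniv W (pw X n) c) : pr (a :: l) ∈ coniv W (pw X n) c := by
  rw [pr_cons]
  obtain ⟨d, hd⟩ := a.gr
  have h1 := D.le_gr _ _ _ (pr_mem l 1)
  rw [A.one] at h1
  rw [W.comm hd h1]
  exact Submodule.smul_mem _ _ (coniv_mul hl _)

/-- Permutation of the factors. -/
def Letter.perm (σ : Equiv.Perm (Fin (n + 1))) (a : Letter D A X F n) : Letter D A X F n :=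
  { a with i := σ a.i }

lemma Letter.perm_val (σ : Equiv.Perm (Fin (n + 1))) (a : Letter D A X F n) :
    (a.perm σ).val = W.map (permHom X n σ) a.val := by
  rw [Letter.val, Letter.val, ← W.map_comp, permHom, liftN_pj]
  rfl

lemma pr_permRep (σ : Equiv.Perm (Fin (n + 1))) (l : List (Letter D A X F n)) :
    permRep W X n σ (pr l) = pr (l.map (Letter.perm σ)) := by
  change W.map (permHom X n σ) (pr l) = _
  rw [pr, pr, map_list_prod, List.map_map, List.map_map]
  congr 1
  refine List.map_congr_left fun a _ => ?_
  rw [Function.comp_apply, Function.comp_apply, Letter.perm_val]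

/-- The letter on the power with one factor more. -/
def Letter.up (a : Letter D A X F n) : Letter D A X F (n + 1) :=
  { f := a.f, hf := a.hf, x := a.x, hx := a.hx, i := a.i.succ }

lemma pr_up (l : List (Letter D A X F n)) :
    pr (l.map Letter.up) = W.map (snd X (pw X n)) (pr l) := by
  have h1 : W.map (snd X (pw X n)) (pr l) = (l.map fun a => W.map (snd X (pw X n)) a.val).prod := by
    rw [pr, map_list_prod, List.map_map]
    rfl
  rw [h1, pr, List.map_map]
  congr 1
  refine List.map_congr_left fun a _ => ?_
  rw [Function.comp_apply, Letter.val, Letter.up, Letter.val, ← W.map_comp]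
  rfl

/-- A list of letters without the factor `0` comes from a smaller power. -/
lemma exists_up (l : List (Letter D A X F (n + 1))) (h : ∀ a ∈ l, a.i ≠ 0) :
    ∃ l' : List (Letter D A X F n), l = l'.map Letter.up := by
  induction l with
  | nil => exact ⟨[], rfl⟩
  | cons a l ih =>
    obtain ⟨l', rfl⟩ := ih fun b hb => h b (List.mem_cons_of_mem _ hb)
    obtain ⟨j, hj⟩ := Fin.exists_succ_eq.2 (h a List.mem_cons_self)
    refine ⟨{ f := a.f, hf := a.hf, x := a.x, hx := a.hx, i := j } :: l', ?_⟩
    rw [List.map_cons, Letter.up]
    congr 1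
    rcases a with ⟨f, hf, x, hx, i⟩
    simp only at hj
    subst hj
    rfl

/-- The types of the product. -/
def Bound (c : ℕ) (l : List (Γ → ℕ × ℕ)) : Prop :=
  ∀ s, c ≤ (l.map fun f => (f s).1).sum ∧ c ≤ (l.map fun f => (f s).2).sum

omit [Group Γ] in
lemma Bound.perm {c : ℕ} {l l' : List (Γ → ℕ × ℕ)} (h : l.Perm l') (hl : Bound c l) :
    Bound c l' := by
  intro s
  rw [← (h.map _).sum_eq, ← (h.map _).sum_eq]
  exact hl s

omit [Group Γ] in
/-- Dropping a frequent type. -/
lemma Bound.drop [DecidableEq (Γ → ℕ × ℕ)] {c : ℕ} {f : Γ → ℕ × ℕ} {l : List (Γ → ℕ × ℕ)}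
    (hl : Bound c (f :: l)) (hf : c ≤ l.count f) : Bound c l := by
  have key : ∀ g : (Γ → ℕ × ℕ) → ℕ, c ≤ g f + (l.map g).sum → c ≤ (l.map g).sum := by
    intro g hg
    rcases Nat.eq_zero_or_pos (g f) with h0 | h0
    · omega
    · have h1 : l.count f ≤ (l.map g).sum := by
        clear hg hf hl
        induction l with
        | nil => simp
        | cons a l ih =>
          rw [List.count_cons, List.map_cons, List.sum_cons]
          by_cases ha : a = f
          · subst ha
            simp only [beq_self_eq_true, if_true]
            omega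
          · simp only [beq_iff_eq, ha, if_false]
            omega
      omega
  intro s
  have h1 := hl s
  rw [List.map_cons, List.sum_cons, List.map_cons, List.sum_cons] at h1
  exact ⟨key (fun f => (f s).1) h1.1, key (fun f => (f s).2) h1.2⟩

lemma exists_count [DecidableEq (Γ → ℕ × ℕ)] {c : ℕ} (l : List (Letter D A X F n))
    (h : c * F.card < l.length) : ∃ a ∈ l, c < (l.map Letter.f).count a.f := by
  by_contra hcon
  push Not at hcon
  have h1 : ∀ f ∈ F, (l.map Letter.f).count f ≤ c := by
    intro f hf
    by_cases hmem : f ∈ l.map Letter.f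
    · obtain ⟨a, ha, rfl⟩ := List.mem_map.1 hmem
      exact hcon a ha
    · rw [List.count_eq_zero_of_not_mem hmem]
      exact Nat.zero_le _
  have h2 : (l.map Letter.f).length = ∑ f ∈ F, (l.map Letter.f).count f := by
    have h3 : ∀ g ∈ (l.map Letter.f), g ∈ F := by
      intro g hg
      obtain ⟨a, -, rfl⟩ := List.mem_map.1 hg
      exact a.hf
    generalize l.map Letter.f = L at h3
    clear hcon h h1
    induction L with
    | nil => simp
    | cons a L ih =>
      rw [List.length_cons, ih fun g hg => h3 g (List.mem_cons_of_mem _ hg)]
      simp only [List.count_cons, Finset.sum_add_distrib, beq_iff_eq]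
      rw [Finset.sum_ite_eq F a (fun _ => 1), if_pos (h3 a List.mem_cons_self)]
  rw [List.length_map] at h2
  have h3 : ∑ f ∈ F, (l.map Letter.f).count f ≤ ∑ _f ∈ F, c := Finset.sum_le_sum h1
  rw [Finset.sum_const, smul_eq_mul] at h3
  have h4 : F.card * c = c * F.card := Nat.mul_comm _ _
  omega

/-- Products of letters with types at least `c`. -/
lemma pr_coniv {c : ℕ} (h : ∀ m < c * F.card, GHC D A (pw X m) c) :
    ∀ (n : ℕ) (l : List (Letter D A X F n)), Bound c (l.map Letter.f) →
      pr l ∈ coniv W (pw X n) c := by
  classical
  by_cases hc : c = 0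
  · subst hc
    intro n l _
    have h1 := coniv_of (W := W) (c := 0) (𝟙 (pw X n)) (pr l) (by omega)
    rwa [W.push_id] at h1
  intro n
  induction n with
  | zero =>
    intro l hl
    by_cases hF : F.card = 0
    · -- no letters
      exfalso
      have h1 : l = [] := by
        cases l with
        | nil => rfl
        | cons a l =>
          have h5 : 0 < F.card := Finset.card_pos.2 ⟨_, a.hf⟩
          omega
      rw [h1] at hl
      have h2 := (hl 1).1
      rw [List.map_nil, List.map_nil, List.sum_nil] at h2
      omega
    · refine h 0 (Nat.mul_pos (Nat.pos_of_ne_zero hc) (Nat.pos_of_ne_zero hF)) _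
        (isSubHodge_Uc _ c) (Submodule.subset_span fun s => ?_)
      have h1 := hl s
      rw [List.map_map, List.map_map] at h1
      exact ⟨_, _, h1.1, h1.2, pr_mem l s⟩
  | succ n ih =>
    by_cases hn : n + 1 < c * F.card
    · intro l hl
      refine h (n + 1) hn _ (isSubHodge_Uc _ c) (Submodule.subset_span fun s => ?_)
      have h1 := hl s
      rw [List.map_map, List.map_map] at h1
      exact ⟨_, _, h1.1, h1.2, pr_mem l s⟩
    · -- induction on the length
      have key : ∀ (L : ℕ) (l : List (Letter D A X F (n + 1))), l.length ≤ L →
          Bound c (l.map Letter.f) → pr l ∈ coniv W (pw X (n + 1)) c := by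
        intro L
        induction L with
        | zero =>
          intro l hlen hl
          have h1 : l = [] := List.length_eq_zero_iff.1 (by omega)
          rw [h1] at hl
          have h2 := (hl 1).1
          rw [List.map_nil, List.map_nil, List.sum_nil] at h2
          omega
        | succ L ihL =>
          intro l hlen hl
          by_cases hbig : c * F.card < l.length
          · -- a frequent type
            obtain ⟨a, ha, hcount⟩ := exists_count l hbig
            obtain ⟨l', hl'⟩ : ∃ l', l.Perm (a :: l') := by
              obtain ⟨s, t, rfl⟩ := List.append_of_mem ha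
              exact ⟨s ++ t, List.perm_middle⟩
            have h1 : Bound c ((a :: l').map Letter.f) := hl.perm (hl'.map _)
            rw [List.map_cons] at h1
            have h2 : (l.map Letter.f).count a.f = (l'.map Letter.f).count a.f + 1 := by
              rw [(hl'.map Letter.f).count_eq, List.map_cons, List.count_cons_self]
            have h3 : Bound c (l'.map Letter.f) := h1.drop (by omega)
            have h4 : l'.length ≤ L := by
              have := hl'.length_eq
              rw [List.length_cons] at this
              omega
            exact pr_coniv_perm hl' (pr_coniv_cons (ihL l' h4 h3))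
          · -- an unused factor
            obtain ⟨i, hi⟩ : ∃ i : Fin (n + 1 + 1), ∀ a ∈ l, a.i ≠ i := by
              by_contra hcon
              push Not at hcon
              have h1 : (Finset.univ : Finset (Fin (n + 1 + 1))) ⊆ (l.map Letter.i).toFinset := by
                intro i _
                obtain ⟨a, ha, rfl⟩ := hcon i
                rw [List.mem_toFinset]
                exact List.mem_map_of_mem ha
              have h2 := Finset.card_le_card h1
              have h3 := List.toFinset_card_le (l.map Letter.i)
              rw [Finset.card_univ, Fintype.card_fin] at h2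
              rw [List.length_map] at h3
              omega
            set σ : Equiv.Perm (Fin (n + 1 + 1)) := Equiv.swap 0 i with hσ
            set l₁ := l.map (Letter.perm σ) with hl₁
            have h1 : ∀ a ∈ l₁, a.i ≠ 0 := by
              intro a ha
              obtain ⟨b, hb, rfl⟩ := List.mem_map.1 ha
              intro h0
              have h2 : σ b.i = 0 := h0
              apply hi b hb
              have h3 : b.i = σ.symm 0 := by rw [← h2, Equiv.symm_apply_apply]
              rw [h3, hσ, Equiv.symm_swap, Equiv.swap_apply_left]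
            obtain ⟨l₂, hl₂⟩ := exists_up l₁ h1
            have h2 : Bound c (l₂.map Letter.f) := by
              have h3 : l₂.map Letter.f = l₁.map Letter.f := by
                rw [hl₂, List.map_map]
                rfl
              have h4 : l₁.map Letter.f = l.map Letter.f := by
                rw [hl₁, List.map_map]
                rfl
              rw [h3, h4]
              exact hl
            have h3 : pr l₁ ∈ coniv W (pw X (n + 1)) c := by
              rw [hl₂, pr_up]
              exact coniv_snd (ih l₂ h2)
            have h4 := coniv_perm σ⁻¹ h3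
            rw [hl₁, ← pr_permRep, ← Module.End.mul_apply, ← map_mul, inv_mul_cancel, map_one,
              Module.End.one_apply] at h4
            exact h4
      intro l hl
      exact key l.length l le_rfl hl

/-- The products of letters span the cohomology. -/
lemma span_pr (hgen : Algebra.adjoin W.K {x : W.H X | ∃ f ∈ F, IsOf D A X f x} = ⊤) (n : ℕ) :
    Submodule.span W.K (Set.range (pr : List (Letter D A X F n) → W.H (pw X n))) = ⊤ := by
  -- the factors
  have h0 : ∀ (n : ℕ) (i : Fin (n + 1)) (z : W.H X), W.map (pj X n i) z ∈
      Submodule.span W.K (Set.range (pr : List (Letter D A X F n) → W.H (pw X n))) := by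
    intro n i z
    have hz : z ∈ Algebra.adjoin W.K {x : W.H X | ∃ f ∈ F, IsOf D A X f x} := by
      rw [hgen]; trivial
    rw [← Subalgebra.mem_toSubmodule, Algebra.adjoin_eq_span] at hz
    induction hz using Submodule.span_induction with
    | mem z hz =>
      obtain ⟨l, hl, rfl⟩ := Submonoid.exists_list_of_mem_closure hz
      have h1 : ∃ l' : List (Letter D A X F n), pr l' = W.map (pj X n i) l.prod := by
        clear hz
        induction l with
        | nil => exact ⟨[], by rw [List.prod_nil, map_one]; rfl⟩
        | cons a l ih =>
          obtain ⟨l', hl'⟩ := ih fun y hy => hl y (List.mem_cons_of_mem _ hy)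
          obtain ⟨f, hf, hx⟩ := hl a List.mem_cons_self
          refine ⟨{ f := f, hf := hf, x := a, hx := hx, i := i } :: l', ?_⟩
          rw [pr_cons, List.prod_cons, map_mul, hl']
          rfl
      obtain ⟨l', hl'⟩ := h1
      rw [← hl']
      exact Submodule.subset_span ⟨l', rfl⟩
    | zero => rw [map_zero]; exact Submodule.zero_mem _
    | add x y _ _ hx hy => rw [map_add]; exact Submodule.add_mem _ hx hy
    | smul r x _ hx => rw [map_smul]; exact Submodule.smul_mem _ _ hx
  induction n with
  | zero =>
    rw [eq_top_iff]
    intro z _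
    have h1 := h0 0 0 z
    have h2 : W.map (pj X 0 0) z = z := W.map_id X z
    rw [h2] at h1
    exact h1
  | succ n ih =>
    rw [eq_top_iff]
    intro z _
    refine W.kunneth_induction (p := fun z : W.H (X.prod (pw X n)) => z ∈ Submodule.span W.K
      (Set.range (pr : List (Letter D A X F (n + 1)) → W.H (pw X (n + 1))))) ?_ ?_ z
    · intro a b ha hb
      exact Submodule.add_mem _ ha hb
    · intro i j a _ b hbgr
      clear hbgr
      have h1 := h0 (n + 1) 0 a
      have hb : b ∈ Submodule.span W.K
          (Set.range (pr : List (Letter D A X F n) → W.H (pw X n))) := by rw [ih]; trivial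
      have h2 : W.map (snd X (pw X n)) b ∈ Submodule.span W.K
          (Set.range (pr : List (Letter D A X F (n + 1)) → W.H (pw X (n + 1)))) := by
        induction hb using Submodule.span_induction with
        | mem b hb =>
          obtain ⟨l, rfl⟩ := hb
          rw [← pr_up]
          exact Submodule.subset_span ⟨_, rfl⟩
        | zero => rw [map_zero]; exact Submodule.zero_mem _
        | add x y _ _ hx hy => rw [map_add]; exact Submodule.add_mem _ hx hy
        | smul r x _ hx => rw [map_smul]; exact Submodule.smul_mem _ _ hx
      have h3 : ∀ x ∈ Submodule.span W.K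
          (Set.range (pr : List (Letter D A X F (n + 1)) → W.H (pw X (n + 1)))),
          ∀ y ∈ Submodule.span W.K
          (Set.range (pr : List (Letter D A X F (n + 1)) → W.H (pw X (n + 1)))),
          x * y ∈ Submodule.span W.K
          (Set.range (pr : List (Letter D A X F (n + 1)) → W.H (pw X (n + 1)))) := by
        intro x hx y hy
        induction hx using Submodule.span_induction with
        | mem x hx =>
          obtain ⟨l, rfl⟩ := hx
          induction hy using Submodule.span_induction with
          | mem y hy =>
            obtain ⟨l', rfl⟩ := hy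
            refine Submodule.subset_span ⟨l ++ l', ?_⟩
            rw [pr, pr, pr, List.map_append, List.prod_append]
          | zero => rw [mul_zero]; exact Submodule.zero_mem _
          | add x y _ _ hx hy => rw [mul_add]; exact Submodule.add_mem _ hx hy
          | smul r x _ hx => rw [mul_smul_comm]; exact Submodule.smul_mem _ _ hx
        | zero => rw [zero_mul]; exact Submodule.zero_mem _
        | add x y _ _ hx hy => rw [add_mul]; exact Submodule.add_mem _ hx hy
        | smul r x _ hx => rw [smul_mul_assoc]; exact Submodule.smul_mem _ _ hx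
      exact h3 _ h1 _ h2

/-- **The generalised Hodge conjecture in coniveau `c` for all powers follows from its case for the
powers with at most `c |F|` factors.** -/
theorem ghc_powers_gen
    (hgen : GeneratedByTypes D A X F) {c : ℕ}
    (h : ∀ m < c * F.card, GHC D A (pw X m) c) (n : ℕ) : GHC D A (pw X n) c := by
  -- a basis of products of letters
  obtain ⟨f, hf, hf2, hf3⟩ := Submodule.exists_fun_fin_finrank_span_eq W.K
    (Set.range (pr : List (Letter D A X F n) → W.H (pw X n)))
  have htop : Submodule.span W.K (Set.range f) = ⊤ := by rw [hf2, span_pr hgen]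
  choose l hl using hf
  let B : TB D A (pw X n) (Fin (Module.finrank W.K (Submodule.span W.K
      (Set.range (pr : List (Letter D A X F n) → W.H (pw X n)))))) :=
    { v := Module.Basis.mk hf3 (by rw [htop])
      t := fun i s => (((l i).map fun a => (a.f s).1).sum, ((l i).map fun a => (a.f s).2).sum)
      mem := fun i s => by
        rw [Module.Basis.mk_apply, ← hl]
        exact pr_mem (l i) s }
  intro U hU x hx
  rw [← B.v.sum_repr x]
  refine Submodule.sum_mem _ fun i _ => ?_
  by_cases hi : B.v.repr x i = 0
  · rw [hi, zero_smul]
    exact Submodule.zero_mem _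
  · refine Submodule.smul_mem _ _ ?_
    have h1 : B.v i = pr (l i) := by
      rw [hl]
      exact Module.Basis.mk_apply hf3 (by rw [htop]) i
    rw [h1]
    refine pr_coniv h n (l i) fun s => ?_
    rw [List.map_map, List.map_map]
    exact B.level hU hx hi s

/-- A variety of CM type has few types. -/
lemma exists_types (hX : IsCMType D A X) : ∃ F : Finset (Γ → ℕ × ℕ),
    F.card ≤ Module.finrank W.K (W.H X) ∧
      GeneratedByTypes D A X F := by
  classical
  obtain ⟨B⟩ := exists_TB hX
  refine ⟨Finset.univ.image B.t, ?_, ?_⟩
  · have h1 := Finset.card_image_le (s := (Finset.univ : Finset (Fin _))) (f := B.t)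
    rwa [Finset.card_univ, Fintype.card_fin] at h1
  · rw [GeneratedByTypes, eq_top_iff]
    intro x _
    rw [← B.v.sum_repr x]
    refine Subalgebra.sum_mem _ fun i _ => Subalgebra.smul_mem _ (Algebra.subset_adjoin ?_) _
    exact ⟨B.t i, Finset.mem_image_of_mem _ (Finset.mem_univ i), B.mem i⟩

end Pool.Agent.X297.CM
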