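import Pool.Agent.X297.CM.Defs

/-!
# The properties of the Hodge decomposition and of the action on the coefficients
-/

open CategoryTheory AlgebraicGeometry

universe u v w

namespace Pool.Agent.X297.CM

open Pool.Agent.H914 Pool.Agent.H914.VarClass Pool.Agent.H914.VarClass.Obj
  Pool.Agent.H914.WeilCohomology

variable {k : Type u} [Field k] {𝒱 : VarClass k} {ops : CycleOps 𝒱}
  {W : WeilCohomology.{u, v} ops} {Γ : Type w} [Group Γ]

namespace Decomposition

variable (D : Decomposition W)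

lemma le_gr (X : 𝒱.Obj) (p q : ℕ) : D.hd X p q ≤ W.gr X (p + q) := (D.isBigrading X).le_gr p q
lemma span (X : 𝒱.Obj) : ⨆ a : ℕ × ℕ, D.hd X a.1 a.2 = ⊤ := (D.isBigrading X).span
lemma indep (X : 𝒱.Obj) : iSupIndep fun a : ℕ × ℕ => D.hd X a.1 a.2 := (D.isBigrading X).indep
lemma mul {X : 𝒱.Obj} {p q p' q' : ℕ} {x y : W.H X} (hx : x ∈ D.hd X p q)
    (hy : y ∈ D.hd X p' q') : x * y ∈ D.hd X (p + p') (q + q') := D.isMul X _ _ _ _ _ _ hx hy
lemma map {X Y : 𝒱.Obj} (f : X ⟶ Y) {p q : ℕ} {y : W.H Y} (hy : y ∈ D.hd Y p q) :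
    W.map f y ∈ D.hd X p q := D.preserves f _ _ _ hy

end Decomposition

namespace CoeffAction

variable (A : CoeffAction W Γ)

lemma one (X : 𝒱.Obj) (x : W.H X) : A.act 1 X x = x := (A.isAction X).one x
lemma comp (s t : Γ) (X : 𝒱.Obj) (x : W.H X) : A.act (s * t) X x = A.act s X (A.act t X x) :=
  (A.isAction X).comp s t x
lemma smul (s : Γ) (X : 𝒱.Obj) (c : W.K) (x : W.H X) :
    A.act s X (c • x) = A.tau s c • A.act s X x := (A.isAction X).smul s c x
lemma mul (s : Γ) (X : 𝒱.Obj) (x y : W.H X) :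
    A.act s X (x * y) = A.act s X x * A.act s X y := (A.isAction X).mul s x y
lemma map (s : Γ) {X Y : 𝒱.Obj} (f : X ⟶ Y) (y : W.H Y) :
    A.act s X (W.map f y) = W.map f (A.act s Y y) := A.isEquivariant f s y
lemma tr (s : Γ) (X : 𝒱.Obj) (x : W.H X) : W.tr X (A.act s X x) = A.tau s (W.tr X x) :=
  (A.isCompatible X).tr s x
lemma gr (s : Γ) (X : 𝒱.Obj) (i : ℕ) (x : W.H X) (hx : x ∈ W.gr X i) :
    A.act s X x ∈ W.gr X i := (A.isCompatible X).gr s i x hx
lemma act_cl (s : Γ) (X : 𝒱.Obj) (z : X.Cycles) : A.act s X (W.cl X z) = W.cl X z :=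
  A.fixes X s z
lemma span (X : 𝒱.Obj) : Submodule.span W.K {x : W.H X | ∀ s, A.act s X x = x} = ⊤ :=
  (A.isAction X).span

end CoeffAction

end Pool.Agent.X297.CM
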