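import Mathlib

/-!
# Galois descent for finite-dimensional vector spaces
-/

namespace Pool.Agent.X297.CM

section

variable {K V Γ : Type*} [Field K] [AddCommGroup V] [Module K V] [Module.Finite K V]
  {tau : Γ → (K ≃+* K)} {act : Γ → V →+ V}

/-- A subspace which is stable under a semilinear action is spanned by fixed elements if the
whole space is. -/
theorem descent (hsmul : ∀ s c x, act s (c • x) = tau s c • act s x)
    (hspan : Submodule.span K {x | ∀ s, act s x = x} = ⊤) (U : Submodule K V)
    (hU : ∀ s, ∀ x ∈ U, act s x ∈ U) : U = Submodule.span K {x | x ∈ U ∧ ∀ s, act s x = x} := by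
  classical
  -- a basis of fixed vectors
  obtain ⟨f, hf, hf2, hf3⟩ := Submodule.exists_fun_fin_finrank_span_eq K {x : V | ∀ s, act s x = x}
  have htop : Submodule.span K (Set.range f) = ⊤ := by rw [hf2, hspan]
  let e := Module.Basis.mk hf3 (by rw [htop])
  have he : ∀ i s, act s (e i) = e i := by
    intro i s
    rw [Module.Basis.mk_apply]
    exact hf i s
  clear_value e
  clear hf hf2 hf3 htop
  have hrepr : ∀ s x i, e.repr (act s x) i = tau s (e.repr x i) := by
    intro s x i
    have h1 : act s x = ∑ j, tau s (e.repr x j) • e j := by
      conv_lhs => rw [← e.sum_repr x]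
      rw [map_sum]
      refine Finset.sum_congr rfl fun j _ => ?_
      rw [hsmul, he]
    rw [h1, Module.Basis.repr_sum_self]
  apply le_antisymm
  · have key : ∀ (m : ℕ) (U : Submodule K V), Module.finrank K U ≤ m →
        (∀ s, ∀ x ∈ U, act s x ∈ U) → U ≤ Submodule.span K {x | x ∈ U ∧ ∀ s, act s x = x} := by
      intro m
      induction m with
      | zero =>
        intro U hm _
        have h1 : U = ⊥ := Submodule.finrank_eq_zero.1 (by omega)
        rw [h1]
        exact bot_le
      | succ m ih =>
        intro U hm hU
        by_cases hbot : U = ⊥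
        · rw [hbot]
          exact bot_le
        obtain ⟨x₀, hx₀, hx₀0⟩ := Submodule.exists_mem_ne_zero_of_ne_bot hbot
        -- an element of minimal support
        have hex : ∃ n, ∃ x ∈ U, x ≠ 0 ∧ (e.repr x).support.card = n := ⟨_, x₀, hx₀, hx₀0, rfl⟩
        obtain ⟨x, hx, hx0, hcard⟩ := Nat.find_spec hex
        have hmin : ∀ y ∈ U, (e.repr y).support.card < (e.repr x).support.card → y = 0 := by
          intro y hy hlt
          by_contra h0
          rw [hcard] at hlt
          exact Nat.find_min hex hlt ⟨y, hy, h0, rfl⟩
        obtain ⟨i₀, hi₀⟩ : ∃ i, e.repr x i ≠ 0 := by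
          by_contra hcon
          push Not at hcon
          apply hx0
          apply e.repr.injective
          ext i
          rw [hcon, map_zero, Finsupp.zero_apply]
        set y := (e.repr x i₀)⁻¹ • x with hy
        have hyU : y ∈ U := Submodule.smul_mem _ _ hx
        have hy1 : e.repr y i₀ = 1 := by
          rw [hy, map_smul, Finsupp.smul_apply, smul_eq_mul, inv_mul_cancel₀ hi₀]
        have hysupp : ∀ i, e.repr x i = 0 → e.repr y i = 0 := by
          intro i hi
          rw [hy, map_smul, Finsupp.smul_apply, hi, smul_zero]
        have hfix : ∀ s, act s y = y := by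
          intro s
          have h1 : act s y - y = 0 := by
            apply hmin _ (Submodule.sub_mem _ (hU s y hyU) hyU)
            apply Finset.card_lt_card
            rw [Finset.ssubset_iff_of_subset]
            · refine ⟨i₀, Finsupp.mem_support_iff.2 hi₀, ?_⟩
              rw [Finsupp.notMem_support_iff, map_sub, Finsupp.sub_apply, hrepr, hy1, map_one,
                sub_self]
            · intro i hi
              rw [Finsupp.mem_support_iff] at hi ⊢
              intro h0
              apply hi
              rw [map_sub, Finsupp.sub_apply, hrepr, hysupp i h0, map_zero, sub_self]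
          exact sub_eq_zero.1 h1
        -- the complement
        set U₁ : Submodule K V := U ⊓ LinearMap.ker (e.coord i₀) with hU₁
        have hU₁le : U₁ ≤ U := inf_le_left
        have hyn : y ∉ U₁ := by
          intro h
          have h1 : e.coord i₀ y = 0 := h.2
          rw [Module.Basis.coord_apply, hy1] at h1
          exact one_ne_zero h1
        have hlt : U₁ < U := lt_of_le_of_ne hU₁le fun h => hyn (h ▸ hyU)
        have hfin := Submodule.finrank_lt_finrank_of_lt hlt
        have hstable : ∀ s, ∀ z ∈ U₁, act s z ∈ U₁ := by
          intro s z hz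
          refine ⟨hU s z hz.1, ?_⟩
          have h1 : e.coord i₀ z = 0 := hz.2
          change e.coord i₀ (act s z) = 0
          rw [Module.Basis.coord_apply] at h1 ⊢
          rw [hrepr, h1, map_zero]
        have h2 := ih U₁ (by omega) hstable
        intro z hz
        have h3 : z - e.repr z i₀ • y ∈ U₁ := by
          refine ⟨Submodule.sub_mem _ hz (Submodule.smul_mem _ _ hyU), ?_⟩
          change e.coord i₀ _ = 0
          rw [map_sub, map_smul, Module.Basis.coord_apply, Module.Basis.coord_apply, hy1,
            smul_eq_mul, mul_one, sub_self]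
        have h4 : z = (z - e.repr z i₀ • y) + e.repr z i₀ • y := by abel
        rw [h4]
        refine Submodule.add_mem _ (Submodule.span_mono ?_ (h2 h3))
          (Submodule.smul_mem _ _ (Submodule.subset_span ⟨hyU, hfix⟩))
        rintro w ⟨hw, hw2⟩
        exact ⟨hU₁le hw, hw2⟩
    exact key _ U le_rfl hU
  · rw [Submodule.span_le]
    rintro x ⟨hx, -⟩
    exact hx

end

end Pool.Agent.X297.CM
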