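import Pool.Agent.X297.CM.Api
import Pool.Agent.X297.CM.Desc
import Pool.Agent.Y133.Half.PredSys

/-!
# The system of the Hodge classes with complex coefficients
-/

open CategoryTheory AlgebraicGeometry

universe u v w

namespace Pool.Agent.X297.CM

open Pool.Agent.H914 Pool.Agent.H914.VarClass Pool.Agent.H914.VarClass.Obj
  Pool.Agent.H914.WeilCohomology Pool.Agent.H281R3.HT
open Pool.Agent.Y133.Half (ClassPred dimOf)

section Lin

variable {K V ι : Type*} [Field K] [AddCommGroup V] [Module K V]

/-- The projection to a summand. -/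
lemma exists_proj {S : ι → Submodule K V} (h : iSupIndep S) (htop : ⨆ i, S i = ⊤) (i : ι) :
    ∃ P : V →ₗ[K] V, (∀ x, P x ∈ S i) ∧ (∀ x ∈ S i, P x = x) ∧ ∀ j, j ≠ i → ∀ x ∈ S j, P x = 0 := by
  have hc : IsCompl (S i) (⨆ (j) (_ : j ≠ i), S j) := by
    refine ⟨h i, ?_⟩
    rw [codisjoint_iff, eq_top_iff, ← htop]
    refine iSup_le fun j => ?_
    by_cases hj : j = i
    · subst hj
      exact le_sup_left
    · exact le_sup_of_le_right (le_iSup₂_of_le j hj le_rfl)
  refine ⟨(S i).projection _ hc, fun x => Submodule.projection_apply_mem hc x,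
    fun x hx => Submodule.projection_apply_of_mem_left hc hx, fun j hj x hx => ?_⟩
  have h1 : x ∈ (⨆ (j) (_ : j ≠ i), S j) :=
    (le_iSup₂_of_le (f := fun (j : ι) (_ : j ≠ i) => S j) j hj le_rfl) hx
  rw [Submodule.projection_apply, Submodule.projectionOnto_apply_of_mem_right hc h1]
  rfl

/-- Elements of different summands. -/
lemma eq_of_mem {S : ι → Submodule K V} (h : iSupIndep S) {i j : ι} {x : V} (hi : x ∈ S i)
    (hj : x ∈ S j) (hx : x ≠ 0) : i = j := by
  by_contra hne
  exact hx (Submodule.disjoint_def.1 (h.pairwiseDisjoint hne) x hi hj)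

end Lin

variable {k : Type u} [Field k] {𝒱 : VarClass k} {ops : CycleOps 𝒱}
  {W : WeilCohomology.{u, v} ops} {Γ : Type w} [Group Γ] {X Y Z : 𝒱.Obj}

namespace Decomposition

variable (D : Decomposition W)

lemma ind {p : W.H X → Prop} (h : ∀ a b, ∀ x ∈ D.hd X a b, p x)
    (hadd : ∀ x y, p x → p y → p (x + y)) (x : W.H X) : p x := by
  have hx : x ∈ ⨆ a : ℕ × ℕ, D.hd X a.1 a.2 := by rw [D.span]; trivial
  exact Submodule.iSup_induction _ (motive := p) hx (fun i x hx => h _ _ x hx)
    (h 0 0 0 (Submodule.zero_mem _)) hadd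

lemma type_eq {a b a' b' : ℕ} {x : W.H X} (h : x ∈ D.hd X a b) (h' : x ∈ D.hd X a' b')
    (hx : x ≠ 0) : a = a' ∧ b = b' := by
  have h1 := eq_of_mem (D.indep X) (i := (a, b)) (j := (a', b')) h h' hx
  exact Prod.mk.inj h1

/-- The trace vanishes outside of the top. -/
lemma tr_zero {a b : ℕ} {x : W.H X} (h : x ∈ D.hd X a b) (hne : ¬ (a = X.dim ∧ b = X.dim)) :
    W.tr X x = 0 := by
  by_cases hd : a + b = 2 * X.dim
  · have h1 : x ∈ D.hd X X.dim X.dim := D.top X (hd ▸ D.le_gr X a b h)
    by_cases hx : x = 0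
    · rw [hx, map_zero]
    · exact absurd (D.type_eq h h1 hx) hne
  · exact W.tr_eq_zero (D.le_gr X a b h) hd

/-- An element which pairs trivially with all but one summand. -/
lemma mem_of_tr {a b : ℕ} {z : W.H X}
    (h : ∀ a' b', ∀ y ∈ D.hd X a' b', ¬ (a + a' = X.dim ∧ b + b' = X.dim) → W.tr X (z * y) = 0) :
    z ∈ D.hd X a b := by
  obtain ⟨P, hP1, hP2, hP3⟩ := exists_proj (D.indep X) (D.span X) (a, b)
  have hz : z - P z = 0 := by
    apply W.nondeg
    intro y
    refine D.ind (p := fun y => W.tr X ((z - P z) * y) = 0) ?_ ?_ y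
    · intro a' b' y hy
      have hPz : ∀ z : W.H X, ¬ (a + a' = X.dim ∧ b + b' = X.dim) → W.tr X (P z * y) = 0 :=
        fun z hne => D.tr_zero (D.mul (hP1 z) hy) hne
      by_cases hne : a + a' = X.dim ∧ b + b' = X.dim
      · -- the other components pair trivially with `y`
        have key : ∀ z : W.H X, W.tr X ((z - P z) * y) = 0 := by
          intro z
          refine D.ind (p := fun z => W.tr X ((z - P z) * y) = 0) ?_ ?_ z
          · intro c d z hz
            by_cases hcd : (c, d) = (a, b)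
            · obtain ⟨rfl, rfl⟩ := Prod.mk.inj hcd
              rw [hP2 z hz, sub_self, zero_mul, map_zero]
            · rw [hP3 (c, d) hcd z hz, sub_zero]
              refine D.tr_zero (D.mul hz hy) fun h => hcd ?_
              rw [Prod.mk.injEq]
              omega
          · intro u v hu hv
            rw [map_add, add_sub_add_comm, add_mul, map_add, hu, hv, add_zero]
        exact key z
      · rw [sub_mul, map_sub, hPz z hne, h a' b' y hy hne, sub_zero]
    · intro x y hx hy
      rw [mul_add, map_add, hx, hy, add_zero]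
  rw [sub_eq_zero] at hz
  rw [hz]
  exact hP1 z

/-- Push-forwards. -/
lemma push_mem (f : X ⟶ Y) {a b a' b' : ℕ} {x : W.H X} (hx : x ∈ D.hd X a b)
    (ha : a' + X.dim = a + Y.dim) (hb : b' + X.dim = b + Y.dim) : W.push f x ∈ D.hd Y a' b' := by
  apply D.mem_of_tr
  intro c d y hy hne
  rw [W.tr_push]
  exact D.tr_zero (D.mul hx (D.map f hy)) fun h => hne (by omega)

end Decomposition

namespace CoeffAction

variable (A : CoeffAction W Γ)

lemma inv_act (s : Γ) (x : W.H X) : A.act s⁻¹ X (A.act s X x) = x := by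
  rw [← A.comp, inv_mul_cancel, A.one]

lemma act_inv (s : Γ) (x : W.H X) : A.act s X (A.act s⁻¹ X x) = x := by
  rw [← A.comp, mul_inv_cancel, A.one]

lemma eq_zero {s : Γ} {x : W.H X} (h : A.act s X x = 0) : x = 0 := by
  rw [← A.inv_act s x, h, map_zero]

lemma push (s : Γ) (f : X ⟶ Y) (x : W.H X) :
    A.act s Y (W.push f x) = W.push f (A.act s X x) := by
  apply W.tr_ext
  intro y
  rw [W.tr_push, ← A.act_inv s y, ← A.mul, A.tr, W.tr_push, A.act_inv, ← A.tr, A.mul, A.map,
    A.act_inv]

end CoeffAction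

variable (D : Decomposition W) (A : CoeffAction W Γ)

/-- The classes all of whose conjugates are of type `(j, j)`. -/
def HC (X : 𝒱.Obj) (j : ℕ) : Submodule W.K (W.H X) where
  carrier := {x | ∀ s, A.act s X x ∈ D.hd X j j}
  add_mem' := by
    intro x y hx hy s
    rw [map_add]
    exact Submodule.add_mem _ (hx s) (hy s)
  zero_mem' := by
    intro s
    rw [map_zero]
    exact Submodule.zero_mem _
  smul_mem' := by
    intro c x hx s
    rw [A.smul]
    exact Submodule.smul_mem _ _ (hx s)

lemma mem_HC {j : ℕ} {x : W.H X} : x ∈ HC D A X j ↔ ∀ s, A.act s X x ∈ D.hd X j j := Iff.rfl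

lemma HC_eq (X : 𝒱.Obj) (j : ℕ) :
    HC D A X j = Submodule.span W.K {x | IsHodgeClass D A X j x} := by
  have h1 := descent (tau := fun s => A.tau s) (act := fun s => A.act s X)
    (fun s c x => A.smul s X c x) (A.span X) (HC D A X j) (by
      intro s x hx t
      rw [← A.comp]
      exact hx _)
  conv_lhs => rw [h1]
  congr 1
  ext x
  constructor
  · rintro ⟨h2, h3⟩
    refine ⟨h3, ?_⟩
    have h4 := h2 1
    rwa [h3 1] at h4
  · rintro ⟨h2, h3⟩
    exact ⟨fun s => by rw [h2 s]; exact h3, h2⟩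

/-- The system of the Hodge classes. -/
def pred : ClassPred W where
  P X j x := x ∈ HC D A X j
  gr := by
    intro X j c hc
    have h1 := D.le_gr X j j (by have := hc 1; rwa [A.one] at this)
    rwa [← two_mul] at h1
  zero := Submodule.zero_mem _
  add := Submodule.add_mem _
  smul := fun r => Submodule.smul_mem _ r
  cl := by
    intro X j z hz s
    rw [A.act_cl]
    exact D.cl hz
  mul := by
    intro X i j a b ha hb s
    rw [A.mul]
    exact D.mul (ha s) (hb s)
  map := by
    intro X Y f j a ha s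
    rw [A.map]
    exact D.map f (ha s)
  push := by
    intro X Y f j l hl a ha s
    rw [A.push]
    exact D.push_mem f (ha s) hl hl

lemma span_eq (Z : 𝒱.Obj) : Submodule.span W.K {c | ∃ j, (pred D A).P Z j c} =
    Submodule.span W.K {x | ∃ j, IsHodgeClass D A Z j x} := by
  apply le_antisymm
  · rw [Submodule.span_le]
    rintro x ⟨j, hx⟩
    have h1 : x ∈ HC D A Z j := hx
    rw [HC_eq] at h1
    have h2 : {x | IsHodgeClass D A Z j x} ⊆ {x | ∃ j, IsHodgeClass D A Z j x} :=
      fun y hy => ⟨j, hy⟩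
    exact Submodule.span_mono h2 h1
  · apply Submodule.span_mono
    rintro x ⟨j, hx⟩
    refine ⟨j, ?_⟩
    change x ∈ HC D A Z j
    rw [HC_eq]
    exact Submodule.subset_span hx

lemma hodgeDim_eq (Z : 𝒱.Obj) : dimOf W {c | ∃ j, (pred D A).P Z j c} = hodgeDim D A Z := by
  rw [hodgeDim, dimOf, Set.finrank, span_eq]

lemma hodgeConj_iff (Z : 𝒱.Obj) (j : ℕ) :
    (∀ c, (pred D A).P Z j c → c ∈ spanCycles W Z j) ↔ HodgeConj D A Z j := by
  constructor
  · intro h x hx
    apply h
    change x ∈ HC D A Z j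
    rw [HC_eq]
    exact Submodule.subset_span hx
  · intro h x hx
    have h1 : x ∈ HC D A Z j := hx
    rw [HC_eq] at h1
    exact Submodule.span_le.2 (fun y hy => h y hy) h1

end Pool.Agent.X297.CM
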