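import Pool.Agent.X297.UB.Explicit

/-!
# Small elements of the monoid of the integral points of a pointed polyhedral cone
-/

set_option autoImplicit false

namespace Pool.Agent.X297.Cone

variable {d : ℕ}

/-- The value of the linear form `s`. -/
def ev (s : Fin d → ℤ) : (Fin d → ℚ) →ₗ[ℚ] ℚ where
  toFun x := ∑ i, (s i : ℚ) * x i
  map_add' x y := by
    rw [← Finset.sum_add_distrib]
    exact Finset.sum_congr rfl fun i _ => by rw [Pi.add_apply, mul_add]
  map_smul' c x := by
    rw [RingHom.id_apply, smul_eq_mul, Finset.mul_sum]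
    exact Finset.sum_congr rfl fun i _ => by rw [Pi.smul_apply, smul_eq_mul]; ring

lemma ev_apply (s : Fin d → ℤ) (x : Fin d → ℚ) : ev s x = ∑ i, (s i : ℚ) * x i := rfl

lemma ev_single (i : Fin d) (x : Fin d → ℚ) : ev (Pi.single i 1) x = x i := by
  rw [ev_apply, Finset.sum_eq_single i]
  · rw [Pi.single_eq_same, Int.cast_one, one_mul]
  · intro j _ hj
    rw [Pi.single_eq_of_ne hj, Int.cast_zero, zero_mul]
  · intro h
    exact absurd (Finset.mem_univ _) h

/-- The space of the vectors on which all forms in `T` vanish which vanish at `x`. -/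
def tight (T : Set (Fin d → ℤ)) (x : Fin d → ℚ) : Submodule ℚ (Fin d → ℚ) where
  carrier := {v | ∀ s ∈ T, ev s x = 0 → ev s v = 0}
  zero_mem' := fun s _ _ => map_zero _
  add_mem' := fun {a b} ha hb s hs h => by rw [map_add, ha s hs h, hb s hs h, add_zero]
  smul_mem' := fun c a ha s hs h => by rw [map_smul, ha s hs h, smul_zero]

variable {T : Set (Fin d → ℤ)} {A : ℕ}

lemma finite_of_bound (hT : ∀ s ∈ T, ∀ i, |s i| ≤ A) : T.Finite := by
  refine (Set.finite_Icc (fun _ : Fin d => -(A : ℤ)) (fun _ => (A : ℤ))).subset fun s hs => ?_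
  exact ⟨fun i => (abs_le.1 (hT s hs i)).1, fun i => (abs_le.1 (hT s hs i)).2⟩

lemma self_mem (x : Fin d → ℚ) : x ∈ tight T x := fun _ _ h => h

/-- Moving to a smaller face. -/
lemma move (hfin : T.Finite) {x v : Fin d → ℚ} (hx : ∀ s ∈ T, 0 ≤ ev s x) (hv : v ∈ tight T x)
    (hneg : ∃ s ∈ T, ev s v < 0) :
    ∃ t : ℚ, 0 ≤ t ∧ (∀ s ∈ T, 0 ≤ ev s (x + t • v)) ∧ tight T (x + t • v) < tight T x := by
  classical
  set T' := hfin.toFinset.filter fun s => ev s v < 0 with hT'
  have hne : T'.Nonempty := by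
    obtain ⟨s, hs, h⟩ := hneg
    exact ⟨s, Finset.mem_filter.2 ⟨hfin.mem_toFinset.2 hs, h⟩⟩
  obtain ⟨s₀, hs₀, hmin⟩ := Finset.exists_min_image T' (fun s => ev s x / (- ev s v)) hne
  have h0 := Finset.mem_filter.1 hs₀
  have hs₀T : s₀ ∈ T := hfin.mem_toFinset.1 h0.1
  have hs₀v : ev s₀ v < 0 := h0.2
  set t : ℚ := ev s₀ x / (- ev s₀ v) with ht
  have ht0 : 0 ≤ t := div_nonneg (hx s₀ hs₀T) (by linarith)
  have hzero : ev s₀ (x + t • v) = 0 := by
    rw [map_add, map_smul, smul_eq_mul, ht]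
    have : ev s₀ v ≠ 0 := hs₀v.ne
    field_simp
    ring
  refine ⟨t, ht0, ?_, ?_⟩
  · intro s hs
    rw [map_add, map_smul, smul_eq_mul]
    by_cases h : ev s v < 0
    · have h1 := hmin s (Finset.mem_filter.2 ⟨hfin.mem_toFinset.2 hs, h⟩)
      have h2 : t * (- ev s v) ≤ ev s x := by
        rw [← le_div_iff₀ (by linarith)]
        exact h1
      linarith
    · have h1 := mul_nonneg ht0 (not_lt.1 h)
      have h2 := hx s hs
      linarith
  · refine lt_of_le_of_ne ?_ ?_
    · intro w hw s hs h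
      apply hw s hs
      rw [map_add, map_smul, h, hv s hs h, smul_zero, add_zero]
    · intro heq
      have h1 : x ∈ tight T (x + t • v) := by rw [heq]; exact self_mem x
      have h2 := h1 s₀ hs₀T hzero
      have h3 := hv s₀ hs₀T h2
      exact hs₀v.ne h3

/-- A small vector in the smallest face which contains `x`. -/
lemma exists_ray (hA : 1 ≤ A) (hT : ∀ s ∈ T, ∀ i, |s i| ≤ A) (hc : ∀ i, Pi.single i 1 ∈ T) :
    ∀ (n : ℕ) (x : Fin d → ℚ), Module.finrank ℚ (tight T x) ≤ n → x ≠ 0 →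
      (∀ s ∈ T, 0 ≤ ev s x) →
      ∃ u : Fin d → ℕ, u ≠ 0 ∧ (∀ s ∈ T, 0 ≤ ev s fun i => (u i : ℚ)) ∧
        (∀ s ∈ T, ev s x = 0 → (ev s fun i => (u i : ℚ)) = 0) ∧ ∀ i, u i ≤ (d * A) ^ d := by
  classical
  intro n
  induction n with
  | zero =>
    intro x hx hx0 _
    exfalso
    have h1 : tight T x = ⊥ := Submodule.finrank_eq_zero.1 (by omega)
    have h2 := self_mem (T := T) x
    rw [h1, Submodule.mem_bot] at h2
    exact hx0 h2
  | succ n ih =>
    intro x hx hx0 hpos
    by_cases hspan : ∀ v ∈ tight T x, ∃ c : ℚ, v = c • x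
    · obtain ⟨u, hu0, -, huS, hu⟩ := UB.exists_small (S := {s | s ∈ T ∧ ev s x = 0}) hA
        (fun s hs => hT s hs.1) hx0 (fun s hs => hs.2)
      have h1 : (fun i => (u i : ℚ)) ∈ tight T x := by
        intro s hs h
        have h2 := huS s ⟨hs, h⟩
        rw [ev_apply]
        exact_mod_cast h2
      obtain ⟨c, hcx⟩ := hspan _ h1
      have hux : ∀ i, (u i : ℚ) = c * x i := fun i => congrFun hcx i
      have hxi : ∀ i, 0 ≤ x i := fun i => by
        have := hpos _ (hc i)
        rwa [ev_single] at this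
      have hc0 : c ≠ 0 := by
        rintro rfl
        apply hu0
        funext i
        have := hux i
        rw [zero_mul] at this
        exact_mod_cast this
      have hcast : ∀ i, ((u i).natAbs : ℚ) = |c| * x i := by
        intro i
        rw [Nat.cast_natAbs, Int.cast_abs, hux i, abs_mul, abs_of_nonneg (hxi i)]
      have hfun : (fun i => ((u i).natAbs : ℚ)) = |c| • x := by
        funext i
        rw [hcast, Pi.smul_apply, smul_eq_mul]
      refine ⟨fun i => (u i).natAbs, ?_, ?_, ?_, ?_⟩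
      · intro h
        apply hu0
        funext i
        have := congrFun h i
        exact Int.natAbs_eq_zero.1 this
      · intro s hs
        rw [hfun, map_smul, smul_eq_mul]
        exact mul_nonneg (abs_nonneg _) (hpos s hs)
      · intro s hs h
        rw [hfun, map_smul, h, smul_zero]
      · intro i
        have := hu i
        rw [Int.abs_eq_natAbs] at this
        exact_mod_cast this
    · push Not at hspan
      obtain ⟨v, hv, hvx⟩ := hspan
      obtain ⟨w, hw, hwx, hneg⟩ : ∃ w ∈ tight T x, (∀ c : ℚ, w ≠ c • x) ∧ ∃ i, w i < 0 := by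
        by_cases h : ∃ i, v i < 0
        · exact ⟨v, hv, hvx, h⟩
        · push Not at h
          have hv0 : v ≠ 0 := fun h0 => hvx 0 (by rw [h0, zero_smul])
          obtain ⟨i, hi⟩ : ∃ i, v i ≠ 0 := by
            by_contra hcon
            push Not at hcon
            exact hv0 (funext hcon)
          refine ⟨-v, Submodule.neg_mem _ hv, fun c hcx => hvx (-c) ?_, i, ?_⟩
          · rw [neg_smul, ← hcx, neg_neg]
          · rw [Pi.neg_apply]
            have := lt_of_le_of_ne (h i) (Ne.symm hi)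
            linarith
      obtain ⟨i, hi⟩ := hneg
      obtain ⟨t, ht0, ht1, ht2⟩ := move (finite_of_bound hT) hpos hw
        ⟨_, hc i, by rw [ev_single]; exact hi⟩
      have h1 := Submodule.finrank_lt_finrank_of_lt ht2
      obtain ⟨u, hu0, hu1, hu2, hu3⟩ := ih (x + t • w) (by omega) (by
        intro h0
        rcases eq_or_ne t 0 with h | h
        · rw [h, zero_smul, add_zero] at h0
          exact hx0 h0
        · apply hwx (-t⁻¹)
          have h2 : x = - (t • w) := eq_neg_of_add_eq_zero_left h0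
          rw [h2, neg_smul, smul_neg, neg_neg, smul_smul, inv_mul_cancel₀ h, one_smul]) ht1
      refine ⟨u, hu0, hu1, fun s hs h => hu2 s hs ?_, hu3⟩
      rw [map_add, map_smul, h, hw s hs h, smul_zero, add_zero]

/-- The decomposition into small vectors. -/
lemma exists_decomp (hA : 1 ≤ A) (hT : ∀ s ∈ T, ∀ i, |s i| ≤ A) (hc : ∀ i, Pi.single i 1 ∈ T) :
    ∀ (n : ℕ) (x : Fin d → ℚ), Module.finrank ℚ (tight T x) ≤ n → (∀ s ∈ T, 0 ≤ ev s x) →
      ∃ L : List (ℚ × (Fin d → ℕ)), L.length ≤ n ∧ (∀ a ∈ L, 0 ≤ a.1 ∧ a.2 ≠ 0 ∧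
        (∀ s ∈ T, 0 ≤ ev s fun i => (a.2 i : ℚ)) ∧ ∀ i, a.2 i ≤ (d * A) ^ d) ∧
        x = (L.map fun a => a.1 • fun i => (a.2 i : ℚ)).sum := by
  classical
  intro n
  induction n with
  | zero =>
    intro x hx _
    refine ⟨[], le_rfl, fun a ha => absurd ha List.not_mem_nil, ?_⟩
    have h1 : tight T x = ⊥ := Submodule.finrank_eq_zero.1 (by omega)
    have h2 := self_mem (T := T) x
    rw [h1, Submodule.mem_bot] at h2
    rw [h2]
    rfl
  | succ n ih =>
    intro x hx hpos
    by_cases hx0 : x = 0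
    · refine ⟨[], Nat.zero_le _, fun a ha => absurd ha List.not_mem_nil, ?_⟩
      rw [hx0]
      rfl
    obtain ⟨u, hu0, hu1, hu2, hu3⟩ := exists_ray hA hT hc _ x le_rfl hx0 hpos
    obtain ⟨i, hi⟩ : ∃ i, u i ≠ 0 := by
      by_contra hcon
      push Not at hcon
      exact hu0 (funext hcon)
    obtain ⟨t, ht0, ht1, ht2⟩ := move (v := - fun i => (u i : ℚ)) (finite_of_bound hT) hpos
      (by
        intro s hs h
        rw [map_neg, hu2 s hs h, neg_zero])
      ⟨_, hc i, by
        rw [ev_single, Pi.neg_apply, neg_lt_zero]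
        exact_mod_cast Nat.pos_of_ne_zero hi⟩
    have h1 := Submodule.finrank_lt_finrank_of_lt ht2
    obtain ⟨L, hL1, hL2, hL3⟩ := ih _ (by omega) ht1
    refine ⟨(t, u) :: L, by rw [List.length_cons]; omega, ?_, ?_⟩
    · intro a ha
      rcases List.mem_cons.1 ha with rfl | ha
      · exact ⟨ht0, hu0, hu1, hu3⟩
      · exact hL2 a ha
    · rw [List.map_cons, List.sum_cons, ← hL3, smul_neg]
      abel

/-- The integral points of the cone. -/
def pts (T : Set (Fin d → ℤ)) : Set (Fin d → ℕ) := {e | ∀ s ∈ T, 0 ≤ ∑ i, s i * (e i : ℤ)}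

lemma mem_pts_iff {e : Fin d → ℕ} : e ∈ pts T ↔ ∀ s ∈ T, 0 ≤ ev s fun i => (e i : ℚ) := by
  refine forall₂_congr fun s _ => ?_
  rw [ev_apply]
  exact_mod_cast Iff.rfl

/-- **A small element can be split off.** -/
theorem exists_small_le (hA : 1 ≤ A) (hT : ∀ s ∈ T, ∀ i, |s i| ≤ A) (hc : ∀ i, Pi.single i 1 ∈ T)
    {e : Fin d → ℕ} (he : e ∈ pts T) (he0 : e ≠ 0) :
    ∃ m ∈ pts T, m ≠ 0 ∧ m ≤ e ∧ e - m ∈ pts T ∧ ∀ i, m i ≤ d * (d * A) ^ d := by
  classical
  obtain ⟨L, hL1, hL2, hL3⟩ := exists_decomp hA hT hc _ (fun i => (e i : ℚ)) le_rfl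
    (mem_pts_iff.1 he)
  have hd : Module.finrank ℚ (tight T fun i => (e i : ℚ)) ≤ d := by
    have := Submodule.finrank_le (tight T fun i => (e i : ℚ))
    rwa [Module.finrank_fin_fun] at this
  have hpos : ∀ L' : List (ℚ × (Fin d → ℕ)), (∀ a ∈ L', 0 ≤ a.1 ∧ a.2 ≠ 0 ∧
        (∀ s ∈ T, 0 ≤ ev s fun i => (a.2 i : ℚ)) ∧ ∀ i, a.2 i ≤ (d * A) ^ d) →
      ∀ s ∈ T, 0 ≤ ev s (L'.map fun a => a.1 • fun i => (a.2 i : ℚ)).sum := by
    intro L' h s hs
    induction L' with
    | nil => rw [List.map_nil, List.sum_nil, map_zero]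
    | cons a L' ih =>
      rw [List.map_cons, List.sum_cons, map_add, map_smul, smul_eq_mul]
      have h1 := h a List.mem_cons_self
      exact add_nonneg (mul_nonneg h1.1 (h1.2.2.1 s hs))
        (ih fun b hb => h b (List.mem_cons_of_mem _ hb))
  by_cases hbig : ∃ a ∈ L, 1 ≤ a.1
  · obtain ⟨a, ha, ha1⟩ := hbig
    obtain ⟨L₁, L₂, rfl⟩ := List.append_of_mem ha
    have h1 := hL2 a ha
    have key : ∀ s ∈ T, 0 ≤ ev s ((fun i => (e i : ℚ)) - fun i => (a.2 i : ℚ)) := by
      intro s hs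
      have h2 := hpos L₁ (fun b hb => hL2 b (List.mem_append_left _ hb)) s hs
      have h3 := hpos L₂ (fun b hb => hL2 b (List.mem_append_right _
        (List.mem_cons_of_mem _ hb))) s hs
      have h4 := h1.2.2.1 s hs
      rw [hL3, List.map_append, List.sum_append, List.map_cons, List.sum_cons, map_sub, map_add,
        map_add, map_smul, smul_eq_mul]
      nlinarith
    have hle : ∀ i, a.2 i ≤ e i := by
      intro i
      have h2 := key _ (hc i)
      rw [ev_single, Pi.sub_apply, sub_nonneg] at h2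
      exact_mod_cast h2
    refine ⟨a.2, mem_pts_iff.2 h1.2.2.1, h1.2.1, hle, ?_, ?_⟩
    · rw [mem_pts_iff]
      intro s hs
      have h2 := key s hs
      convert h2 using 2
      funext i
      rw [Pi.sub_apply, Pi.sub_apply, Nat.cast_sub (hle i)]
    · intro i
      refine (h1.2.2.2 i).trans ?_
      have hd0 : 0 < d := Fin.pos i
      exact Nat.le_mul_of_pos_left _ hd0
  · push Not at hbig
    refine ⟨e, he, he0, le_rfl, ?_, ?_⟩
    · rw [mem_pts_iff]
      intro s hs
      have : (fun i => (((e - e) i : ℕ) : ℚ)) = 0 := by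
        funext i
        rw [Pi.sub_apply, Nat.sub_self, Nat.cast_zero]
        rfl
      rw [this, map_zero]
    · intro i
      have h2 : ∀ L' : List (ℚ × (Fin d → ℕ)), (∀ a ∈ L', 0 ≤ a.1 ∧ a.1 < 1 ∧
          ∀ i, a.2 i ≤ (d * A) ^ d) →
          (L'.map fun a => a.1 • fun i => (a.2 i : ℚ)).sum i ≤
            ((L'.length * (d * A) ^ d : ℕ) : ℚ) := by
        intro L' h
        induction L' with
        | nil => simp
        | cons a L' ih =>
          rw [List.map_cons, List.sum_cons, Pi.add_apply, Pi.smul_apply, smul_eq_mul,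
            List.length_cons, Nat.succ_mul, Nat.cast_add, add_comm]
          obtain ⟨h3, h4, h5⟩ := h a List.mem_cons_self
          refine add_le_add (ih fun b hb => h b (List.mem_cons_of_mem _ hb)) ?_
          have h6 : (a.2 i : ℚ) ≤ (((d * A) ^ d : ℕ) : ℚ) := by exact_mod_cast h5 i
          have h7 : (0 : ℚ) ≤ a.2 i := Nat.cast_nonneg _
          calc a.1 * (a.2 i : ℚ) ≤ 1 * (a.2 i : ℚ) := mul_le_mul_of_nonneg_right h4.le h7
            _ ≤ _ := by rw [one_mul]; exact h6
      have h3 := h2 L fun a ha => ⟨(hL2 a ha).1, hbig a ha, (hL2 a ha).2.2.2⟩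
      rw [← hL3] at h3
      have h3' : (e i : ℚ) ≤ ((L.length * (d * A) ^ d : ℕ) : ℚ) := h3
      have h4 : e i ≤ L.length * (d * A) ^ d := by exact_mod_cast h3'
      exact h4.trans (Nat.mul_le_mul_right _ (hL1.trans hd))

end Pool.Agent.X297.Cone
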