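import Pool.Agent.X297.CM.Words

/-!
# The generalised Hodge conjecture for the powers of a variety of CM type
-/

open CategoryTheory AlgebraicGeometry Filter Topology

universe u v w

namespace Pool.Agent.X297.CM

open Pool.Agent.H914 Pool.Agent.H914.VarClass Pool.Agent.H914.VarClass.Obj
  Pool.Agent.H914.WeilCohomology Pool.Agent.H281R3.HT
open Pool.Agent.Y129 (pw pj word exists_word_basis word_succ permHom permHom_mul permHom_one
  permRep_word permRep)
open Pool.Agent.Y133.Half (PH PH.of PH.map PH.push PH.comm)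

variable {k : Type u} [Field k] {𝒱 : VarClass k} {ops : CycleOps 𝒱}
  {W : WeilCohomology.{u, v} ops} {Γ : Type w} [Group Γ] {X Y Z : 𝒱.Obj}
  {D : Decomposition W} {A : CoeffAction W Γ}

/-- Base change for the projection of a product. -/
lemma map_snd_push (h : Y ⟶ Z) (y : W.H Y) :
    W.map (snd X Z) (W.push h y) =
      W.push (Obj.lift (fst X Y) (snd X Y ≫ h)) (W.map (snd X Y) y) := by
  refine gr_induction (W.isInternal Y) (p := fun y => W.map (snd X Z) (W.push h y) =
      W.push (Obj.lift (fst X Y) (snd X Y ≫ h)) (W.map (snd X Y) y)) ?_ ?_ y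
  · intro i y hy
    apply W.tr_ext
    intro c
    rw [W.tr_push]
    refine W.kunneth_induction (p := fun c => W.tr (X.prod Z) (W.map (snd X Z) (W.push h y) * c) =
      W.tr (X.prod Y) (W.map (snd X Y) y *
        W.map (Obj.lift (fst X Y) (snd X Y ≫ h)) c)) ?_ ?_ c
    · intro a b ha hb
      rw [mul_add, map_add, ha, hb, map_add, mul_add, map_add]
    · intro j l a ha b hb
      have e1 : Obj.lift (fst X Y) (snd X Y ≫ h) ≫ fst X Z = fst X Y := Obj.lift_fst _ _
      have e2 : Obj.lift (fst X Y) (snd X Y ≫ h) ≫ snd X Z = snd X Y ≫ h := Obj.lift_snd _ _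
      rw [map_mul (W.map (Obj.lift (fst X Y) (snd X Y ≫ h))), ← W.map_comp, ← W.map_comp, e1, e2,
        W.map_comp (snd X Y) h]
      have c1 := PH.comm (PH.map (snd X Z) (PH.push h (PH.of hy)))
        (PH.of (W.map_mem (fst X Z) ha))
      have c2 := PH.comm (PH.of (W.map_mem (snd X Y) hy)) (PH.of (W.map_mem (fst X Y) ha))
      rw [← mul_assoc, c1, ← mul_assoc, c2, smul_mul_assoc, smul_mul_assoc, mul_assoc, mul_assoc,
        ← map_mul, ← map_mul, map_smul, map_smul, W.tr_prod, W.tr_prod, W.tr_push]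
  · intro a b ha hb
    rw [map_add, map_add, ha, hb, map_add, map_add]

lemma coniv_ind {c : ℕ} {p : W.H X → Prop} (h0 : p 0) (hadd : ∀ x y, p x → p y → p (x + y))
    (hsmul : ∀ (r : W.K) x, p x → p (r • x))
    (h : ∀ (Y : 𝒱.Obj) (f : Y ⟶ X) (y : W.H Y), Y.dim + c ≤ X.dim → p (W.push f y)) {x : W.H X}
    (hx : x ∈ coniv W X c) : p x := by
  induction hx using Submodule.span_induction with
  | mem x hx =>
    obtain ⟨Y, f, y, hd, rfl⟩ := hx
    exact h Y f y hd
  | zero => exact h0
  | add x y _ _ hx hy => exact hadd x y hx hy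
  | smul r x _ hx => exact hsmul r x hx

lemma coniv_of {c : ℕ} (f : Y ⟶ X) (y : W.H Y) (hd : Y.dim + c ≤ X.dim) :
    W.push f y ∈ coniv W X c := Submodule.subset_span ⟨Y, f, y, hd, rfl⟩

lemma coniv_mul {c : ℕ} {x : W.H X} (hx : x ∈ coniv W X c) (z : W.H X) :
    x * z ∈ coniv W X c := by
  refine coniv_ind (p := fun x => x * z ∈ coniv W X c) ?_ ?_ ?_ ?_ hx
  · rw [zero_mul]; exact Submodule.zero_mem _
  · intro x y hx hy; rw [add_mul]; exact Submodule.add_mem _ hx hy
  · intro r x hx; rw [smul_mul_assoc]; exact Submodule.smul_mem _ _ hx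
  · intro Y f y hd
    rw [← W.push_mul]
    exact coniv_of f _ hd

lemma coniv_snd {c : ℕ} {z : W.H Z} (hz : z ∈ coniv W Z c) :
    W.map (snd X Z) z ∈ coniv W (X.prod Z) c := by
  refine coniv_ind (p := fun z => W.map (snd X Z) z ∈ coniv W (X.prod Z) c) ?_ ?_ ?_ ?_ hz
  · rw [map_zero]; exact Submodule.zero_mem _
  · intro x y hx hy; rw [map_add]; exact Submodule.add_mem _ hx hy
  · intro r x hx; rw [map_smul]; exact Submodule.smul_mem _ _ hx
  · intro Y f y hd
    rw [map_snd_push]
    apply coniv_of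
    rw [dim_prod, dim_prod]
    omega

lemma coniv_push_iso {c : ℕ} (f : X ⟶ Y) (hd : Y.dim = X.dim) {x : W.H X}
    (hx : x ∈ coniv W X c) : W.push f x ∈ coniv W Y c := by
  refine coniv_ind (p := fun x => W.push f x ∈ coniv W Y c) ?_ ?_ ?_ ?_ hx
  · rw [map_zero]; exact Submodule.zero_mem _
  · intro x y hx hy; rw [map_add]; exact Submodule.add_mem _ hx hy
  · intro r x hx; rw [map_smul]; exact Submodule.smul_mem _ _ hx
  · intro Z g z hd'
    rw [← W.push_comp]
    exact coniv_of _ _ (by omega)

/-- Pull-backs under automorphisms. -/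
lemma coniv_iso {c : ℕ} (f g : X ⟶ X) (h1 : f ≫ g = 𝟙 X) (h2 : g ≫ f = 𝟙 X) {x : W.H X}
    (hx : x ∈ coniv W X c) : W.map f x ∈ coniv W X c := by
  have e1 : W.push g x = W.map f x * W.push g 1 := by
    have h3 : ∀ z : W.H X, W.push g (W.map g z) = z * W.push g 1 := by
      intro z
      have h4 := W.push_mul g 1 z
      rw [one_mul] at h4
      rw [h4]
      have h5 : W.push g (1 : W.H X) ∈ W.gr X (2 * 0) := by
        have h6 := W.push_mem g (W.one_mem X)
        have h7 : ((0 : ℕ) : ℤ) + 2 * ((X.dim : ℤ) - X.dim) = ((0 : ℕ) : ℤ) := by ring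
        rw [h7, grZ_natCast] at h6
        exact h6
      exact W.even_comm h5 z
    have h4 := h3 (W.map f x)
    rw [← W.map_comp, h2, W.map_id] at h4
    exact h4
  have e2 : W.push g (1 : W.H X) * W.map f (W.push f 1) = 1 := by
    have h3 : W.push g (W.push f (1 : W.H X)) = 1 := by
      rw [← W.push_comp, h1, W.push_id]
    have h4 : W.push g (W.push f (1 : W.H X)) = W.push g 1 * W.map f (W.push f 1) := by
      rw [← W.push_mul, one_mul, ← W.map_comp, h2, W.map_id]
    rw [← h4, h3]
  have e3 : W.map f x = W.push g x * W.map f (W.push f 1) := by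
    rw [e1, mul_assoc, e2, mul_one]
  rw [e3]
  exact coniv_mul (coniv_push_iso g rfl hx) _

lemma coniv_perm {c n : ℕ} (σ : Equiv.Perm (Fin (n + 1))) {x : W.H (pw X n)}
    (hx : x ∈ coniv W (pw X n) c) : permRep W X n σ x ∈ coniv W (pw X n) c :=
  coniv_iso (permHom X n σ) (permHom X n σ⁻¹)
    (by rw [← permHom_mul, mul_inv_cancel, permHom_one])
    (by rw [← permHom_mul, inv_mul_cancel, permHom_one]) hx

section Level

/-- The span of the elements all of whose conjugates are of a type `(p, q)` with `p, q ≥ c`. -/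
def Uc (D : Decomposition W) (A : CoeffAction W Γ) (X : 𝒱.Obj) (c : ℕ) :
    Submodule W.K (W.H X) :=
  Submodule.span W.K {x | ∀ s, ∃ p q, c ≤ p ∧ c ≤ q ∧ A.act s X x ∈ D.hd X p q}

lemma isSubHodge_Uc (X : 𝒱.Obj) (c : ℕ) : IsSubHodge D A X c (Uc D A X c) where
  stable := by
    intro s x hx
    induction hx using Submodule.span_induction with
    | mem x hx =>
      apply Submodule.subset_span
      intro t
      obtain ⟨p, q, h1, h2, h3⟩ := hx (t * s)
      rw [A.comp] at h3
      exact ⟨p, q, h1, h2, h3⟩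
    | zero => rw [map_zero]; exact Submodule.zero_mem _
    | add x y _ _ hx hy => rw [map_add]; exact Submodule.add_mem _ hx hy
    | smul r x _ hx => rw [A.smul]; exact Submodule.smul_mem _ _ hx
  split := by
    unfold IsSplit
    rw [Uc, Submodule.span_le]
    intro x hx
    obtain ⟨p, q, -, -, h3⟩ := hx 1
    rw [A.one] at h3
    have h4 : x ∈ Uc D A X c ⊓ D.hd X p q := ⟨Submodule.subset_span hx, h3⟩
    exact (le_iSup (fun a : ℕ × ℕ => Uc D A X c ⊓ D.hd X a.1 a.2) (p, q)) h4
  level := by
    intro p q x hx hpq hx0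
    by_contra hne
    apply hx0
    obtain ⟨P, hP1, hP2, hP3⟩ := exists_proj (D.indep X) (D.span X) (p, q)
    have h1 : P x = 0 := by
      clear hpq hx0
      induction hx using Submodule.span_induction with
      | mem x hx =>
        obtain ⟨p', q', h1, h2, h3⟩ := hx 1
        rw [A.one] at h3
        refine hP3 (p', q') (fun h => hne ?_) x h3
        obtain ⟨rfl, rfl⟩ := Prod.mk.inj h
        exact ⟨h1, h2⟩
      | zero => rw [map_zero]
      | add x y _ _ hx hy => rw [map_add, hx, hy, add_zero]
      | smul r x _ hx => rw [map_smul, hx, smul_zero]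
    rw [← hP2 x hpq, h1]

/-- The support of the elements of a sub-Hodge structure. -/
lemma TB.level {ι : Type} [Fintype ι] (B : TB D A Z ι) {c : ℕ} {U : Submodule W.K (W.H Z)}
    (hU : IsSubHodge D A Z c U) {x : W.H Z} (hx : x ∈ U) {i : ι} (hi : B.v.repr x i ≠ 0) (s : Γ) :
    c ≤ (B.t i s).1 ∧ c ≤ (B.t i s).2 := by
  classical
  obtain ⟨P, hP1, hP2, hP3⟩ := exists_proj (D.indep Z) (D.span Z) (B.t i s)
  -- the component is in the sub-Hodge structure
  have hPU : ∀ y ∈ U, P y ∈ U := by
    intro y hy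
    have h1 := hU.split hy
    refine Submodule.iSup_induction _ (motive := fun y => P y ∈ U) h1 (fun a y hy => ?_)
      (by rw [map_zero]; exact Submodule.zero_mem _)
      (fun a b ha hb => by rw [map_add]; exact Submodule.add_mem _ ha hb)
    by_cases ha : a = B.t i s
    · subst ha
      rw [hP2 _ hy.2]
      exact hy.1
    · rw [hP3 a ha _ hy.2]
      exact Submodule.zero_mem _
  have h1 : P (A.act s Z x) ∈ U := hPU _ (hU.stable s x hx)
  refine hU.level _ _ _ h1 (hP1 _) ?_
  -- it is not zero
  intro h0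
  have h2 : P (A.act s Z x) = A.act s Z (∑ j, if B.t j s = B.t i s then
      B.v.repr x j • B.v j else 0) := by
    conv_lhs => rw [← B.v.sum_repr x]
    rw [map_sum, map_sum, map_sum]
    refine Finset.sum_congr rfl fun j _ => ?_
    rw [A.smul, map_smul]
    by_cases hj : B.t j s = B.t i s
    · rw [if_pos hj, A.smul]
      congr 1
      have h2 := B.mem j s
      rw [hj] at h2
      exact hP2 _ h2
    · rw [if_neg hj, map_zero, hP3 (B.t j s) hj _ (B.mem j s), smul_zero]
  rw [h2] at h0
  have h3 := A.eq_zero h0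
  apply hi
  have h4 : B.v.repr (∑ j, if B.t j s = B.t i s then B.v.repr x j • B.v j else 0) i =
      B.v.repr x i := by
    rw [map_sum, Finsupp.finsetSum_apply, Finset.sum_eq_single i]
    · rw [if_pos rfl, map_smul, Finsupp.smul_apply, B.v.repr_self, Finsupp.single_eq_same,
        smul_eq_mul, mul_one]
    · intro j _ hj
      by_cases h : B.t j s = B.t i s
      · rw [if_pos h, map_smul, Finsupp.smul_apply, B.v.repr_self,
          Finsupp.single_eq_of_ne (Ne.symm hj), smul_zero]
      · rw [if_neg h, map_zero, Finsupp.zero_apply]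
    · intro h
      exact absurd (Finset.mem_univ _) h
  rw [← h4, h3, map_zero, Finsupp.zero_apply]

end Level

/-- Frequent letters. -/
lemma exists_frequent {b n c : ℕ} (x : Fin (n + 1) → Fin b) (h : c * b < n + 1) :
    ∃ i, c < (Finset.univ.filter fun j => x j = x i).card := by
  classical
  by_contra hcon
  push Not at hcon
  have h1 : ∀ e : Fin b, (Finset.univ.filter fun j => x j = e).card ≤ c := by
    intro e
    by_cases he : ∃ i, x i = e
    · obtain ⟨i, rfl⟩ := he
      exact hcon i
    · push Not at he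
      rw [Finset.filter_false_of_mem (fun j _ => he j), Finset.card_empty]
      exact Nat.zero_le _
  have h2 : (Finset.univ : Finset (Fin (n + 1))).card =
      ∑ e : Fin b, (Finset.univ.filter fun j => x j = e).card :=
    Finset.card_eq_sum_card_fiberwise fun _ _ => Finset.mem_univ _
  rw [Finset.card_univ, Fintype.card_fin] at h2
  have h3 : ∑ e : Fin b, (Finset.univ.filter fun j => x j = e).card ≤ ∑ _e : Fin b, c :=
    Finset.sum_le_sum fun e _ => h1 e
  rw [Finset.sum_const, Finset.card_univ, Fintype.card_fin, smul_eq_mul] at h3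
  have h4 : b * c = c * b := Nat.mul_comm _ _
  omega

/-- Dropping a frequent letter. -/
lemma drop_bound {n c : ℕ} (f : Fin (n + 1) → ℕ) (i : Fin (n + 1)) (S : Finset (Fin (n + 1)))
    (hi : i ∈ S) (hS : ∀ j ∈ S, f j = f i) (hcard : c < S.card) (hsum : c ≤ ∑ j, f j) :
    c ≤ ∑ j ∈ Finset.univ.erase i, f j := by
  rcases Nat.eq_zero_or_pos (f i) with h0 | h0
  · have h1 := Finset.add_sum_erase Finset.univ f (Finset.mem_univ i)
    omega
  · have h1 : ∑ j ∈ S.erase i, f j ≤ ∑ j ∈ Finset.univ.erase i, f j :=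
      Finset.sum_le_sum_of_subset (Finset.erase_subset_erase _ (Finset.subset_univ _))
    have h2 : (S.erase i).card * 1 ≤ ∑ j ∈ S.erase i, f j := by
      rw [mul_one, Finset.card_eq_sum_ones]
      refine Finset.sum_le_sum fun j hj => ?_
      rw [hS j (Finset.mem_of_mem_erase hj)]
      exact h0
    rw [Finset.card_erase_of_mem hi] at h2
    omega

lemma word_mem_coniv (B : TB D A X (Fin (Module.finrank W.K (W.H X)))) {c : ℕ}
    (h : ∀ m < c * Module.finrank W.K (W.H X), GHC D A (pw X m) c) :
    ∀ (n : ℕ) (x : Fin (n + 1) → Fin (Module.finrank W.K (W.H X))),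
      (∀ s, c ≤ ∑ i, (B.t (x i) s).1 ∧ c ≤ ∑ i, (B.t (x i) s).2) →
      word B.v n x ∈ coniv W (pw X n) c := by
  classical
  have hdeg : ∀ i, ∃ d, B.v i ∈ W.gr X d := fun i => by
    have h1 := D.le_gr X _ _ (B.mem i 1)
    rw [A.one] at h1
    exact ⟨_, h1⟩
  intro n
  induction n with
  | zero =>
    intro x hx
    by_cases hc : c = 0
    · subst hc
      have h1 := coniv_of (W := W) (c := 0) (𝟙 (pw X 0)) (word B.v 0 x) (by omega)
      rwa [W.push_id] at h1
    · refine h 0 (Nat.mul_pos (Nat.pos_of_ne_zero hc) (Fin.pos (x 0))) _ (isSubHodge_Uc _ c)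
        (Submodule.subset_span fun s => ?_)
      exact ⟨_, _, (hx s).1, (hx s).2, B.word_mem 0 x s⟩
  | succ n ih =>
    intro x hx
    by_cases hn : n + 1 < c * Module.finrank W.K (W.H X)
    · refine h (n + 1) hn _ (isSubHodge_Uc _ c) (Submodule.subset_span fun s => ?_)
      exact ⟨_, _, (hx s).1, (hx s).2, B.word_mem (n + 1) x s⟩
    obtain ⟨i, hi⟩ := exists_frequent (c := c) x (by omega)
    set σ : Equiv.Perm (Fin (n + 1 + 1)) := Equiv.swap 0 i with hσ
    set y : Fin (n + 1 + 1) → Fin (Module.finrank W.K (W.H X)) := fun j => x (σ j) with hy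
    have hy0 : y 0 = x i := by rw [hy]; simp only; rw [hσ, Equiv.swap_apply_left]
    have hyx : (fun j => y (σ⁻¹ j)) = x := by
      funext j
      rw [hy]
      simp only
      congr 1
      exact σ.apply_symm_apply j
    -- the tail
    have htail : ∀ f : Fin (Module.finrank W.K (W.H X)) → ℕ, c ≤ ∑ j, f (x j) →
        c ≤ ∑ j : Fin (n + 1), f (y j.succ) := by
      intro f hf
      have h1 : ∑ j, f (y j) = ∑ j, f (x j) := Equiv.sum_comp σ (fun j => f (x j))
      rw [Fin.sum_univ_succ, hy0] at h1
      have h2 := Finset.add_sum_erase Finset.univ (fun j => f (x j)) (Finset.mem_univ i)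
      have h3 := drop_bound (fun j => f (x j)) i (Finset.univ.filter fun j => x j = x i)
        (by simp) (fun j hj => by
          rw [Finset.mem_filter] at hj
          rw [hj.2]) hi hf
      omega
    have h1 : word B.v (n + 1) y ∈ coniv W (pw X (n + 1)) c := by
      rw [word_succ]
      have h2 := coniv_snd (X := X) (ih (fun j => y j.succ) fun s =>
        ⟨htail (fun e => (B.t e s).1) (hx s).1, htail (fun e => (B.t e s).2) (hx s).2⟩)
      obtain ⟨d, hd⟩ := hdeg (y 0)
      have h3 := D.le_gr _ _ _ (B.word_mem n (fun j => y j.succ) 1)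
      rw [A.one] at h3
      have h4 := W.comm (W.map_mem (fst X (pw X n)) hd) (W.map_mem (snd X (pw X n)) h3)
      have h5 := coniv_mul h2 (W.map (fst X (pw X n)) (B.v (y 0)))
      have h6 : W.map (fst X (pw X n)) (B.v (y 0)) *
          W.map (snd X (pw X n)) (word B.v n fun j => y j.succ) ∈ coniv W (X.prod (pw X n)) c := by
        rw [h4]
        exact Submodule.smul_mem _ _ h5
      exact h6
    have h2 := coniv_perm σ h1
    rcases permRep_word hdeg (n + 1) σ y with h3 | h3
    · rw [h3, hyx] at h2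
      exact h2
    · rw [h3, hyx] at h2
      rw [← neg_neg (word B.v (n + 1) x)]
      exact Submodule.neg_mem _ h2

/-- **The generalised Hodge conjecture in coniveau `c` for all powers of a variety of CM type follows
from its case for the powers with at most `c b` factors.** -/
theorem ghc_powers (hX : IsCMType D A X) {c : ℕ}
    (h : ∀ m < c * Module.finrank W.K (W.H X), GHC D A (pw X m) c) (n : ℕ) :
    GHC D A (pw X n) c := by
  obtain ⟨B⟩ := exists_TB hX
  intro U hU x hx
  rw [← (B.words n).v.sum_repr x]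
  refine Submodule.sum_mem _ fun y _ => ?_
  by_cases hy : (B.words n).v.repr x y = 0
  · rw [hy, zero_smul]
    exact Submodule.zero_mem _
  · refine Submodule.smul_mem _ _ ?_
    have h1 : (B.words n).v y = word B.v n y := (exists_word_basis B.v n).choose_spec y
    rw [h1]
    exact word_mem_coniv B h n y fun s => (B.words n).level hU hx hy s

end Pool.Agent.X297.CM
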