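import Mathlib
import Pool.Agent.Y129.Defs
import Pool.Agent.H914R2.DDefs
import Pool.Agent.Y133.Half.DDefs

/-!
# Complex cohomology with its Hodge decomposition and the automorphisms of the field of complex numbers

In the intended use the varieties are the smooth projective complex ones, `W` is the cohomology
`H(X) = H(X, ℚ) ⊗ ℂ` of the complex manifolds with complex coefficients, and `Γ` is the group of all
automorphisms of the field `ℂ`, which acts on the coefficients. The elements fixed by `Γ` are those
of `H(X, ℚ)`.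
-/

open CategoryTheory AlgebraicGeometry

universe u v w

namespace Pool.Agent.X297.CM

open Pool.Agent.H914 Pool.Agent.H914.VarClass Pool.Agent.H914.VarClass.Obj
  Pool.Agent.H914.WeilCohomology

section Generic

variable {K : Type v} [Field K] {V : Type v} [AddCommGroup V] [Module K V]

/-- The space is the direct sum of the subspaces `hd p q`, and these are contained in the
`gr (p + q)`. -/
structure IsBigrading (gr : ℕ → Submodule K V) (hd : ℕ → ℕ → Submodule K V) : Prop where
  le_gr : ∀ p q, hd p q ≤ gr (p + q)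
  span : ⨆ a : ℕ × ℕ, hd a.1 a.2 = ⊤
  indep : iSupIndep fun a : ℕ × ℕ => hd a.1 a.2

/-- The types add up in products. -/
def IsMulBigrading {H : Type v} [Ring H] [Algebra K H] (hd : ℕ → ℕ → Submodule K H) : Prop :=
  ∀ p q p' q' x y, x ∈ hd p q → y ∈ hd p' q' → x * y ∈ hd (p + p') (q + q')

/-- The map preserves the types. -/
def PreservesTypes {H H' : Type v} [Ring H] [Algebra K H] [Ring H'] [Algebra K H'] (f : H →ₐ[K] H')
    (hd : ℕ → ℕ → Submodule K H) (hd' : ℕ → ℕ → Submodule K H') : Prop :=
  ∀ p q y, y ∈ hd p q → f y ∈ hd' p q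

/-- The maps `act s` are an action of the group `Γ` on the algebra `H` by ring automorphisms,
semilinear with respect to the action `tau` of `Γ` on the field `K`, and the algebra is spanned by
the elements fixed by `Γ`. -/
structure IsSemilinearAction {H : Type v} [Ring H] [Algebra K H] {Γ : Type w} [Group Γ]
    (tau : Γ →* (K ≃+* K)) (act : Γ → H →+ H) : Prop where
  one : ∀ x, act 1 x = x
  comp : ∀ s t x, act (s * t) x = act s (act t x)
  smul : ∀ s c x, act s (c • x) = tau s c • act s x
  mul : ∀ s x y, act s (x * y) = act s x * act s y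
  span : Submodule.span K {x : H | ∀ s, act s x = x} = ⊤

/-- The action is compatible with the grading and with the linear form `tr`. -/
structure IsCompatible {Γ : Type w} [Group Γ] (tau : Γ →* (K ≃+* K)) (act : Γ → V →+ V)
    (gr : ℕ → Submodule K V) (tr : V →ₗ[K] K) : Prop where
  gr : ∀ s i x, x ∈ gr i → act s x ∈ gr i
  tr : ∀ s x, tr (act s x) = tau s (tr x)

/-- The map commutes with the actions. -/
def IsEquivariant {H H' : Type v} [Ring H] [Algebra K H] [Ring H'] [Algebra K H']
    {Γ : Type w} (f : H →ₐ[K] H') (act : Γ → H →+ H) (act' : Γ → H' →+ H') : Prop :=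
  ∀ s y, act' s (f y) = f (act s y)

/-- The subspace is the sum of its intersections with the subspaces `hd p q`. -/
def IsSplit (hd : ℕ → ℕ → Submodule K V) (U : Submodule K V) : Prop :=
  U ≤ ⨆ a : ℕ × ℕ, U ⊓ hd a.1 a.2

/-- The intersection of the subspace with `hd p q` vanishes unless `c ≤ p` and `c ≤ q`. -/
def HasTypesAtLeast (hd : ℕ → ℕ → Submodule K V) (U : Submodule K V) (c : ℕ) : Prop :=
  ∀ p q, ∀ x ∈ U, x ∈ hd p q → x ≠ 0 → c ≤ p ∧ c ≤ q

/-- The classes in the image of `cl` are fixed. -/
def Fixes {C : Type u} {H : Type v} [AddCommGroup C] [Ring H] {Γ : Type w} (act : Γ → H →+ H) (cl : C →+ H) :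
    Prop :=
  ∀ s z, act s (cl z) = cl z

end Generic

variable {k : Type u} [Field k] {𝒱 : VarClass k} {ops : CycleOps 𝒱}

/-- The Hodge decomposition of the cohomology: the subspaces `hd X p q` are the `H^(p,q)(X)`. -/
structure Decomposition (W : WeilCohomology.{u, v} ops) where
  /-- the subspaces -/
  hd : ∀ X : 𝒱.Obj, ℕ → ℕ → Submodule W.K (W.H X)
  isBigrading : ∀ X, IsBigrading (W.gr X) (hd X)
  isMul : ∀ X, IsMulBigrading (hd X)
  preserves : ∀ {X Y : 𝒱.Obj} (f : X ⟶ Y), PreservesTypes (W.map f) (hd Y) (hd X)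
  top : ∀ X, W.gr X (2 * X.dim) ≤ hd X X.dim X.dim
  cl : ∀ {X : 𝒱.Obj} {j} {z : X.Cycles}, X.IsCyc j z → W.cl X z ∈ hd X j j

/-- The action of the group `Γ` of automorphisms of the field of coefficients. -/
structure CoeffAction (W : WeilCohomology.{u, v} ops) (Γ : Type w) [Group Γ] where
  /-- the automorphisms of the field -/
  tau : Γ →* (W.K ≃+* W.K)
  /-- the action on the cohomology -/
  acts : ∀ X : 𝒱.Obj, Γ → W.H X →+ W.H X
  isAction : ∀ X, IsSemilinearAction tau (acts X)
  isCompatible : ∀ X, IsCompatible tau (acts X) (W.gr X) (W.tr X)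
  isEquivariant : ∀ {X Y : 𝒱.Obj} (f : X ⟶ Y), IsEquivariant (W.map f) (acts Y) (acts X)
  fixes : ∀ X, Fixes (acts X) (W.cl X)

variable {W : WeilCohomology.{u, v} ops} {Γ : Type w} [Group Γ]

/-- The action of `s` on the cohomology of `X`. -/
def CoeffAction.act (A : CoeffAction W Γ) (s : Γ) (X : 𝒱.Obj) : W.H X →+ W.H X := A.acts X s

/-- The element `x` is a rational Hodge class of degree `2 j`: it is fixed by `Γ` and of type
`(j, j)`. -/
def IsHodgeClass (D : Decomposition W) (A : CoeffAction W Γ) (X : 𝒱.Obj) (j : ℕ) (x : W.H X) :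
    Prop :=
  (∀ s, A.act s X x = x) ∧ x ∈ D.hd X j j

/-- The dimension of the space of the rational Hodge classes of all degrees. -/
noncomputable def hodgeDim (D : Decomposition W) (A : CoeffAction W Γ) (X : 𝒱.Obj) : ℕ :=
  Module.finrank W.K (Submodule.span W.K {x | ∃ j, IsHodgeClass D A X j x})

/-- The Hodge conjecture for `X` in degree `2 j`. -/
def HodgeConj (D : Decomposition W) (A : CoeffAction W Γ) (X : 𝒱.Obj) (j : ℕ) : Prop :=
  ∀ x, IsHodgeClass D A X j x → x ∈ spanCycles W X j

/-- All conjugates of the element `x` are of pure type; `f` is the difference `p - q` of the types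
`(p, q)` of the conjugates. -/
def HasType (D : Decomposition W) (A : CoeffAction W Γ) (X : 𝒱.Obj) (x : W.H X) (f : Γ → ℤ) :
    Prop :=
  ∀ s, ∃ p q, A.act s X x ∈ D.hd X p q ∧ f s = p - q

/-- The variety `X` is of CM type (its Mumford-Tate group is commutative): its complex cohomology
is spanned by elements all of whose conjugates are of pure type. -/
def IsCMType (D : Decomposition W) (A : CoeffAction W Γ) (X : 𝒱.Obj) : Prop :=
  Submodule.span W.K {x | ∃ f, HasType D A X x f} = ⊤

/-- The dimension of the Hodge group (the special Mumford-Tate group) of a variety of CM type: the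
rank of the group generated by the types of the elements of the cohomology. -/
noncomputable def hodgeRank (D : Decomposition W) (A : CoeffAction W Γ) (X : 𝒱.Obj) : ℕ :=
  Module.finrank ℤ (Submodule.span ℤ {f : Γ → ℤ | ∃ x ≠ 0, HasType D A X x f})

/-- The subspace `U` of the complex cohomology comes from a rational sub-Hodge structure of
coniveau at least `c`: it is stable under the automorphisms of the coefficients, it is the sum of its
intersections with the `H^(p,q)`, and these vanish unless `c ≤ p` and `c ≤ q`. -/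
structure IsSubHodge (D : Decomposition W) (A : CoeffAction W Γ) (X : 𝒱.Obj) (c : ℕ)
    (U : Submodule W.K (W.H X)) : Prop where
  stable : ∀ s, ∀ x ∈ U, A.act s X x ∈ U
  split : IsSplit (D.hd X) U
  level : HasTypesAtLeast (D.hd X) U c

/-- The `c`-th step of the coniveau filtration (with complex coefficients): the span of the images
of the Gysin maps `H(Y) → H(X)` for all morphisms `Y → X` with `dim Y ≤ dim X - c`. -/
def coniv (W : WeilCohomology.{u, v} ops) (X : 𝒱.Obj) (c : ℕ) : Submodule W.K (W.H X) :=
  Submodule.span W.K {x | ∃ (Y : 𝒱.Obj) (f : Y ⟶ X) (y : W.H Y), Y.dim + c ≤ X.dim ∧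
    W.push f y = x}

/-- The generalised Hodge conjecture for `X` in coniveau `c`: the rational sub-Hodge structures of
the cohomology of coniveau at least `c` are contained in the `c`-th step of the coniveau
filtration. -/
def GHC (D : Decomposition W) (A : CoeffAction W Γ) (X : 𝒱.Obj) (c : ℕ) : Prop :=
  ∀ U, IsSubHodge D A X c U → U ≤ coniv W X c

/-- The element `x` is of type `f`: the conjugate of `x` by `s` is of type `(p, q) = f s`. -/
def IsOf (D : Decomposition W) (A : CoeffAction W Γ) (X : 𝒱.Obj) (f : Γ → ℕ × ℕ) (x : W.H X) :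
    Prop :=
  ∀ s, A.act s X x ∈ D.hd X (f s).1 (f s).2

/-- The cohomology algebra of `X` is generated by elements of the types in the finite set `F`. -/
def GeneratedByTypes (D : Decomposition W) (A : CoeffAction W Γ) (X : 𝒱.Obj)
    (F : Finset (Γ → ℕ × ℕ)) : Prop :=
  Algebra.adjoin W.K {x : W.H X | ∃ f ∈ F, IsOf D A X f x} = ⊤

/-- The bound for the number of factors. -/
def powersBound (b d : ℕ) : ℕ := b * ((b + 1) * ((b + 1) * (d + 1)) ^ (b + 1))

/-- The sequence `t n * (n + 1) ^ (r / 2) / b ^ (n + 1)`. -/
noncomputable def scaled (b r : ℕ) (t : ℕ → ℕ) (n : ℕ) : ℝ :=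
  ((n + 1 : ℕ) : ℝ) ^ ((r : ℝ) / 2) * t n / (b : ℝ) ^ (n + 1)

end Pool.Agent.X297.CM
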