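import Pool.Agent.X297.CM.Coniv
import Pool.Agent.X297.CM.Cone

/-!
# The generalised Hodge conjecture for all powers of a variety of CM type follows from its case for
# finitely many powers
-/

open CategoryTheory AlgebraicGeometry Filter Topology

universe u v w

namespace Pool.Agent.X297.CM

open Pool.Agent.H914 Pool.Agent.H914.VarClass Pool.Agent.H914.VarClass.Obj
  Pool.Agent.H914.WeilCohomology Pool.Agent.H281R3.HT
open Pool.Agent.Y129 (pw pj word exists_word_basis word_succ permHom permHom_mul permHom_one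
  permRep_word permRep liftN liftN_pj pw_ext prod_ext)
open Pool.Agent.Y133.Half (PH PH.of PH.map PH.push PH.comm)

variable {k : Type u} [Field k] {𝒱 : VarClass k} {ops : CycleOps 𝒱}
  {W : WeilCohomology.{u, v} ops} {Γ : Type w} [Group Γ] {X Y Z : 𝒱.Obj}
  {D : Decomposition W} {A : CoeffAction W Γ}

lemma coniv_push {c c' : ℕ} (f : X ⟶ Y) (hd : X.dim + c' ≤ Y.dim) {x : W.H X}
    (hx : x ∈ coniv W X c) : W.push f x ∈ coniv W Y (c + c') := by
  refine coniv_ind (p := fun x => W.push f x ∈ coniv W Y (c + c')) ?_ ?_ ?_ ?_ hx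
  · rw [map_zero]; exact Submodule.zero_mem _
  · intro x y hx hy; rw [map_add]; exact Submodule.add_mem _ hx hy
  · intro r x hx; rw [map_smul]; exact Submodule.smul_mem _ _ hx
  · intro Z g z hd'
    rw [← W.push_comp]
    exact coniv_of _ _ (by omega)

lemma coniv_mul_left {c : ℕ} {x : W.H X} (hx : x ∈ coniv W X c) (z : W.H X) :
    z * x ∈ coniv W X c := by
  refine coniv_ind (p := fun x => z * x ∈ coniv W X c) ?_ ?_ ?_ ?_ hx
  · rw [mul_zero]; exact Submodule.zero_mem _
  · intro x y hx hy; rw [mul_add]; exact Submodule.add_mem _ hx hy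
  · intro r x hx; rw [mul_smul_comm]; exact Submodule.smul_mem _ _ hx
  · intro Y f y hd
    refine gr_induction (W.isInternal X) (p := fun z => z * W.push f y ∈ coniv W X c) ?_ ?_ z
    · intro i z hz
      refine gr_induction (W.isInternal Y) (p := fun y => z * W.push f y ∈ coniv W X c) ?_ ?_ y
      · intro j y hy
        rw [PH.comm (PH.of hz) (PH.push f (PH.of hy))]
        exact Submodule.smul_mem _ _ (coniv_mul (coniv_of f y hd) z)
      · intro a b ha hb
        rw [map_add, mul_add]
        exact Submodule.add_mem _ ha hb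
    · intro a b ha hb
      rw [add_mul]
      exact Submodule.add_mem _ ha hb

/-- Pull-backs under isomorphisms. -/
lemma coniv_iso' {c : ℕ} (f : X ⟶ Y) (g : Y ⟶ X) (h1 : f ≫ g = 𝟙 X) (h2 : g ≫ f = 𝟙 Y)
    (hd : Y.dim = X.dim) {x : W.H Y} (hx : x ∈ coniv W Y c) : W.map f x ∈ coniv W X c := by
  have h3 : ∀ z : W.H X, W.push g (W.map g z) = z * W.push g 1 := by
    intro z
    have h4 := W.push_mul g 1 z
    rw [one_mul] at h4
    rw [h4]
    have h5 : W.push g (1 : W.H Y) ∈ W.gr X (2 * 0) := by
      have h6 := W.push_mem g (W.one_mem Y)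
      have h7 : ((0 : ℕ) : ℤ) + 2 * ((X.dim : ℤ) - Y.dim) = ((0 : ℕ) : ℤ) := by
        rw [hd]; ring
      rw [h7, grZ_natCast] at h6
      exact h6
    exact W.even_comm h5 z
  have e1 : W.push g x = W.map f x * W.push g 1 := by
    have h4 := h3 (W.map f x)
    rw [← W.map_comp, h2, W.map_id] at h4
    exact h4
  have e2 : W.push g (1 : W.H Y) * W.map f (W.push f 1) = 1 := by
    have h4 : W.push g (W.push f (1 : W.H X)) = 1 := by
      rw [← W.push_comp, h1, W.push_id]
    have h5 : W.push g (W.push f (1 : W.H X)) = W.push g 1 * W.map f (W.push f 1) := by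
      rw [← W.push_mul, one_mul, ← W.map_comp, h2, W.map_id]
    rw [← h5, h4]
  have e3 : W.map f x = W.push g x * W.map f (W.push f 1) := by
    rw [e1, mul_assoc, e2, mul_one]
  rw [e3]
  have h6 := coniv_push (c' := 0) g (by omega) hx
  exact coniv_mul h6 _

lemma coniv_fst {c : ℕ} {z : W.H X} (hz : z ∈ coniv W X c) :
    W.map (fst X Z) z ∈ coniv W (X.prod Z) c := by
  have h1 := coniv_snd (X := Z) hz
  have h2 := coniv_iso' (Obj.lift (snd X Z) (fst X Z)) (Obj.lift (snd Z X) (fst Z X))
    (prod_ext (by simp) (by simp)) (prod_ext (by simp) (by simp))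
    (by rw [dim_prod, dim_prod]; omega) h1
  rw [← W.map_comp, Obj.lift_snd] at h2
  exact h2

/-- The external product of classes of coniveau `c` and `c'` has coniveau `c + c'`. -/
lemma coniv_prod {c c' : ℕ} {z : W.H X} (hz : z ∈ coniv W X c) {z' : W.H Y}
    (hz' : z' ∈ coniv W Y c') :
    W.map (snd X Y) z' * W.map (fst X Y) z ∈ coniv W (X.prod Y) (c + c') := by
  refine coniv_ind (p := fun z' => W.map (snd X Y) z' * W.map (fst X Y) z ∈
    coniv W (X.prod Y) (c + c')) ?_ ?_ ?_ ?_ hz'
  · rw [map_zero, zero_mul]; exact Submodule.zero_mem _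
  · intro x y hx hy; rw [map_add, add_mul]; exact Submodule.add_mem _ hx hy
  · intro r x hx; rw [map_smul, smul_mul_assoc]; exact Submodule.smul_mem _ _ hx
  · intro Y' h y hd
    rw [map_snd_push, ← W.push_mul, ← W.map_comp, Obj.lift_fst]
    refine coniv_push _ ?_ (coniv_mul_left (coniv_fst hz) _)
    rw [dim_prod, dim_prod]
    omega

lemma dim_pw (n : ℕ) : (pw X n).dim = (n + 1) * X.dim := by
  induction n with
  | zero => rw [zero_add, one_mul]; rfl
  | succ n ih =>
    change (X.prod (pw X n)).dim = _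
    rw [dim_prod, ih]
    ring

section Append

variable (X)

/-- The isomorphism between a power and a product of two powers. -/
noncomputable def split (a c : ℕ) : pw X (a + 1 + c) ⟶ (pw X a).prod (pw X c) :=
  Obj.lift (liftN X a fun i => pj X (a + 1 + c) (Fin.castAdd (c + 1) i))
    (liftN X c fun j => pj X (a + 1 + c) (Fin.natAdd (a + 1) j))

/-- The inverse. -/
noncomputable def join (a c : ℕ) : (pw X a).prod (pw X c) ⟶ pw X (a + 1 + c) :=
  liftN X (a + 1 + c) (Fin.addCases (m := a + 1) (n := c + 1)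
    (motive := fun _ => ((pw X a).prod (pw X c) ⟶ X))
    (fun i => fst (pw X a) (pw X c) ≫ pj X a i) (fun j => snd (pw X a) (pw X c) ≫ pj X c j))

lemma join_castAdd (a c : ℕ) (i : Fin (a + 1)) :
    join X a c ≫ pj X (a + 1 + c) (Fin.castAdd (c + 1) i) = fst (pw X a) (pw X c) ≫ pj X a i := by
  rw [join, liftN_pj]
  exact Fin.addCases_left (m := a + 1) (n := c + 1) i

lemma join_natAdd (a c : ℕ) (j : Fin (c + 1)) :
    join X a c ≫ pj X (a + 1 + c) (Fin.natAdd (a + 1) j) = snd (pw X a) (pw X c) ≫ pj X c j := by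
  rw [join, liftN_pj]
  exact Fin.addCases_right (m := a + 1) (n := c + 1) j

lemma split_join (a c : ℕ) : split X a c ≫ join X a c = 𝟙 _ := by
  apply pw_ext
  intro i
  rw [Category.assoc, Category.id_comp]
  refine Fin.addCases (m := a + 1) (n := c + 1) (fun i => ?_) (fun j => ?_) i
  · rw [join_castAdd, split, lift_fst_assoc, liftN_pj]
  · rw [join_natAdd, split, lift_snd_assoc, liftN_pj]

lemma join_split (a c : ℕ) : join X a c ≫ split X a c = 𝟙 _ := by
  apply prod_ext
  · rw [Category.assoc, split, Obj.lift_fst, Category.id_comp]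
    apply pw_ext
    intro i
    rw [Category.assoc, liftN_pj, join_castAdd]
  · rw [Category.assoc, split, Obj.lift_snd, Category.id_comp]
    apply pw_ext
    intro i
    rw [Category.assoc, liftN_pj, join_natAdd]

variable {X}

lemma word_append {ι : Type} (v : Module.Basis ι W.K (W.H X)) (a c : ℕ) (x : Fin (a + 1) → ι)
    (y : Fin (c + 1) → ι) :
    word v (a + 1 + c) (Fin.append x y : Fin (a + 1 + (c + 1)) → ι) = W.map (split X a c)
      (W.map (fst (pw X a) (pw X c)) (word v a x) * W.map (snd (pw X a) (pw X c)) (word v c y)) := by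
  rw [map_mul, ← W.map_comp, ← W.map_comp, split, Obj.lift_fst, Obj.lift_snd]
  have h1 : (fun i : Fin (a + 1 + (c + 1)) => W.map (pj X (a + 1 + c) i) (v (Fin.append x y i))) =
      Fin.append (fun i : Fin (a + 1) => W.map (pj X (a + 1 + c) (Fin.castAdd (c + 1) i)) (v (x i)))
        (fun j : Fin (c + 1) => W.map (pj X (a + 1 + c) (Fin.natAdd (a + 1) j)) (v (y j))) := by
    funext i
    refine Fin.addCases (fun i => ?_) (fun j => ?_) i
    · rw [Fin.append_left, Fin.append_left]
    · rw [Fin.append_right, Fin.append_right]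
  have h2 : word v (a + 1 + c) (Fin.append x y : Fin (a + 1 + (c + 1)) → ι) =
      (List.ofFn (fun i : Fin (a + 1 + (c + 1)) =>
        W.map (pj X (a + 1 + c) i) (v (Fin.append x y i)))).prod := rfl
  rw [h2, h1, List.ofFn_fin_append, List.prod_append, word, word, map_list_prod, map_list_prod,
    List.map_ofFn, List.map_ofFn]
  congr 2
  · apply congrArg List.ofFn
    funext i
    rw [Function.comp_apply, ← W.map_comp, liftN_pj]
  · apply congrArg List.ofFn
    funext i
    rw [Function.comp_apply, ← W.map_comp, liftN_pj]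

lemma word_append_coniv {ι : Type} (v : Module.Basis ι W.K (W.H X))
    (hv : ∀ n (x : Fin (n + 1) → ι), ∃ d, word v n x ∈ W.gr (pw X n) d) {a c : ℕ}
    {x : Fin (a + 1) → ι} {y : Fin (c + 1) → ι} {e e' : ℕ} (hx : word v a x ∈ coniv W (pw X a) e)
    (hy : word v c y ∈ coniv W (pw X c) e') :
    word v (a + 1 + c) (Fin.append x y : Fin (a + 1 + (c + 1)) → ι) ∈ coniv W (pw X (a + 1 + c)) (e + e') := by
  rw [word_append]
  refine coniv_iso' (split X a c) (join X a c) (split_join X a c) (join_split X a c) ?_ ?_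
  · rw [dim_prod, dim_pw, dim_pw, dim_pw]
    ring
  · obtain ⟨d, hd⟩ := hv a x
    obtain ⟨d', hd'⟩ := hv c y
    rw [PH.comm (PH.map _ (PH.of hd)) (PH.map _ (PH.of hd'))]
    exact Submodule.smul_mem _ _ (coniv_prod hx hy)

end Append

end Pool.Agent.X297.CM
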