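import Pool.Agent.X297.CM.Words

/-!
# The growth of the numbers of Hodge classes and of cycles on the powers of a variety of CM type
-/

open CategoryTheory AlgebraicGeometry Filter Topology

open scoped ENNReal

universe u v w

namespace Pool.Agent.X297.CM

open Pool.Agent.H914 Pool.Agent.H914.VarClass Pool.Agent.H914.VarClass.Obj
  Pool.Agent.H914.WeilCohomology Pool.Agent.H281R3.HT
open Pool.Agent.Y129 (pw)
open Pool.Agent.Y133.Half (cycRank)

variable {k : Type u} [Field k] {𝒱 : VarClass k} {ops : CycleOps 𝒱}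
  {W : WeilCohomology.{u, v} ops} {Γ : Type w} [Group Γ] {X Y Z : 𝒱.Obj}
  {D : Decomposition W} {A : CoeffAction W Γ}

/-- The Hodge conjecture for a variety of CM type implies the conjecture D. -/
lemma homEqNum_of_hodge {ι : Type} [Fintype ι] (B : TB D A Z ι) (h : ∀ j, HodgeConj D A Z j) :
    HomEqNum W Z := by
  have heq := (Pool.Agent.Y133.Half.ClassPred.sp_eq_iff (Q := pred D A) Z).2 fun j =>
    (hodgeConj_iff D A Z j).2 (h j)
  change Submodule.span W.K {c | ∃ j, (pred D A).P Z j c} = algSpan W Z at heq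
  rw [Pool.Agent.Y133.Half.homEqNum_iff, eq_bot_iff]
  intro c hc
  have h1 : c ∈ algSpan W Z ∧ ∀ d ∈ algSpan W Z, W.tr Z (c * d) = 0 := hc
  rw [← heq] at h1
  rw [Submodule.mem_bot]
  exact B.nondeg h1.1 h1.2

/-- **The growth of the numbers of Hodge classes and of cycles.** -/
theorem growth (hX : IsCMType D A X) [Nontrivial (W.H X)] {b r : ℕ}
    (hb : b = Module.finrank W.K (W.H X)) (hr : r = hodgeRank D A X) :
    ∃ (C : ℝ) (N : ℕ∞), 0 < C ∧ 1 ≤ N ∧
      Tendsto (scaled b r fun n => hodgeDim D A (pw X n)) atTop (𝓝 C) ∧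
      Tendsto (scaled b r fun n => cycRank ops (pw X n)) atTop
        (𝓝 (C * ((N : ℝ≥0∞)⁻¹).toReal)) ∧
      (N = 1 ↔ ∀ n j, HodgeConj D A (pw X n) j) := by
  subst hb hr
  obtain ⟨C, hC, hlim⟩ := hodge_growth hX
  obtain ⟨N, hN1, hN, -, hN3, -⟩ := (pred D A).index X
  simp only [hodgeDim_eq] at hN
  obtain ⟨B⟩ := exists_TB hX
  have hrpow : ∀ n : ℕ, Real.sqrt (n + 1 : ℕ) ^ hodgeRank D A X =
      ((n + 1 : ℕ) : ℝ) ^ ((hodgeRank D A X : ℝ) / 2) := by
    intro n
    rw [Real.sqrt_eq_rpow, ← Real.rpow_natCast, ← Real.rpow_mul (Nat.cast_nonneg _)]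
    congr 1
    ring
  have hT0 : ∀ n, 0 < hodgeDim D A (pw X n) := by
    intro n
    have hne : (1 : W.H (pw X n)) ≠ 0 := by
      have : Nontrivial (W.H (pw X n)) := by
        apply Module.nontrivial_of_finrank_pos (R := W.K)
        rw [Pool.Agent.Y129.finrank_pw]
        exact Nat.pow_pos Module.finrank_pos
      exact one_ne_zero
    have h2 : IsHodgeClass D A (pw X n) 0 (1 : W.H (pw X n)) := by
      rw [← W.cl_fund]
      exact ⟨fun s => A.act_cl s _ _, D.cl (pw X n).V.fundCycle_mem⟩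
    rw [hodgeDim]
    have : Nontrivial (Submodule.span W.K {x | ∃ j, IsHodgeClass D A (pw X n) j x}) := by
      refine ⟨⟨⟨1, Submodule.subset_span ⟨0, h2⟩⟩, 0, fun h => ?_⟩⟩
      exact hne (congrArg Subtype.val h)
    exact Module.finrank_pos
  refine ⟨C, N, hC, hN1, ?_, ?_, ?_⟩
  · refine hlim.congr fun n => ?_
    rw [scaled, hrpow, mul_div_assoc]
  · -- the ratio
    have h1 : Tendsto (fun n => ((cycRank ops (pw X n) : ℝ≥0∞) /
        hodgeDim D A (pw X n))) atTop (𝓝 (N : ℝ≥0∞)⁻¹) := by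
      refine hN.inv.congr fun n => ?_
      rw [ENNReal.inv_div]
      · exact Or.inl (ENNReal.natCast_ne_top _)
      · right
        exact Nat.cast_ne_zero.2 (hT0 n).ne'
    have hNtop : (N : ℝ≥0∞)⁻¹ ≠ ⊤ := by
      rw [Ne, ENNReal.inv_eq_top]
      intro h0
      have : N = 0 := by exact_mod_cast h0
      rw [this] at hN1
      exact absurd hN1 (by decide)
    have h2 := (ENNReal.tendsto_toReal hNtop).comp h1
    have h3 := hlim.mul h2
    refine h3.congr fun n => ?_
    simp only [Function.comp_apply]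
    rw [ENNReal.toReal_div, ENNReal.toReal_natCast, ENNReal.toReal_natCast, hrpow, scaled]
    have h4 : (hodgeDim D A (pw X n) : ℝ) ≠ 0 := by
      exact_mod_cast (hT0 n).ne'
    field_simp
  · rw [hN3]
    refine forall_congr' fun n => ?_
    constructor
    · rintro ⟨h1, -⟩ j
      exact (hodgeConj_iff D A _ j).1 (h1 j)
    · intro h1
      exact ⟨fun j => (hodgeConj_iff D A _ j).2 (h1 j), homEqNum_of_hodge (B.words n) h1⟩

end Pool.Agent.X297.CM
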