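import Pool.Agent.X297.CM.Basic
import Pool.Agent.X297.GR.Lat
import Pool.Agent.X297.GR.Count
import Pool.Agent.Y129.Pow

/-!
# Bases of pure elements
-/

open CategoryTheory AlgebraicGeometry Filter Topology

universe u v w

namespace Pool.Agent.X297.CM

open Pool.Agent.H914 Pool.Agent.H914.VarClass Pool.Agent.H914.VarClass.Obj
  Pool.Agent.H914.WeilCohomology Pool.Agent.H281R3.HT
open Pool.Agent.Y129 (pw pj word exists_word_basis word_succ)

variable {k : Type u} [Field k] {𝒱 : VarClass k} {ops : CycleOps 𝒱}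
  {W : WeilCohomology.{u, v} ops} {Γ : Type w} [Group Γ] {X Y Z : 𝒱.Obj}
  {D : Decomposition W} {A : CoeffAction W Γ}

/-- A basis of elements all of whose conjugates are of pure type. -/
structure TB (D : Decomposition W) (A : CoeffAction W Γ) (Z : 𝒱.Obj) (ι : Type) where
  v : Module.Basis ι W.K (W.H Z)
  t : ι → Γ → ℕ × ℕ
  mem : ∀ i s, A.act s Z (v i) ∈ D.hd Z (t i s).1 (t i s).2

lemma exists_TB (h : IsCMType D A X) : Nonempty (TB D A X (Fin (Module.finrank W.K (W.H X)))) := by
  obtain ⟨f, hf, hf2, hf3⟩ := Submodule.exists_fun_fin_finrank_span_eq W.K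
    {x : W.H X | ∃ f, HasType D A X x f}
  have htop : Submodule.span W.K (Set.range f) = ⊤ := by rw [hf2]; exact h
  have hn : Module.finrank W.K (Submodule.span W.K {x : W.H X | ∃ f, HasType D A X x f}) =
      Module.finrank W.K (W.H X) := by
    rw [show Submodule.span W.K {x : W.H X | ∃ f, HasType D A X x f} = ⊤ from h, finrank_top]
  let v := (Module.Basis.mk hf3 (by rw [htop])).reindex (finCongr hn)
  have hv : ∀ i, ∃ f, HasType D A X (v i) f := by
    intro i
    rw [Module.Basis.reindex_apply, Module.Basis.mk_apply]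
    exact hf _
  choose F hF using hv
  choose p q hpq _ using hF
  exact ⟨⟨v, fun i s => (p i s, q i s), fun i s => hpq i s⟩⟩

namespace TB

section General

variable {ι : Type} (B : TB D A Z ι)

lemma act_ne (i : ι) (s : Γ) : A.act s Z (B.v i) ≠ 0 := fun h => B.v.ne_zero i (A.eq_zero h)

/-- The degree. -/
lemma deg (i : ι) (s s' : Γ) :
    (B.t i s).1 + (B.t i s).2 = (B.t i s').1 + (B.t i s').2 := by
  have h1 := D.le_gr Z _ _ (B.mem i s)
  have h2 := D.le_gr Z _ _ (B.mem i s')
  have h3 := A.gr (s' * s⁻¹) Z _ _ h1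
  rw [← A.comp, inv_mul_cancel_right] at h3
  by_contra hne
  have h4 := proj_same (W.isInternal Z) h2
  rw [proj_ne (W.isInternal Z) h3 hne] at h4
  exact B.act_ne i s' h4.symm

variable [Fintype ι]

/-- The support of an element of pure type. -/
lemma supp {s : Γ} {c : W.H Z} {p q : ℕ} (hc : A.act s Z c ∈ D.hd Z p q) {i : ι}
    (hi : B.v.repr c i ≠ 0) : B.t i s = (p, q) := by
  classical
  obtain ⟨P, hP1, hP2, hP3⟩ := exists_proj (D.indep Z) (D.span Z) (p, q)
  set c' : W.H Z := ∑ j, if B.t j s = (p, q) then B.v.repr c j • B.v j else 0 with hc'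
  have h1 : A.act s Z c' = A.act s Z c := by
    rw [← hP2 _ hc]
    conv_rhs => rw [← B.v.sum_repr c]
    rw [hc', map_sum, map_sum, map_sum]
    refine Finset.sum_congr rfl fun j _ => ?_
    rw [A.smul, map_smul]
    by_cases hj : B.t j s = (p, q)
    · rw [if_pos hj, A.smul]
      congr 1
      have h2 := B.mem j s
      rw [hj] at h2
      exact (hP2 _ h2).symm
    · rw [if_neg hj, map_zero, hP3 (B.t j s) hj _ (B.mem j s), smul_zero]
  have h2 : c' = c := by
    have h3 : A.act s Z (c' - c) = 0 := by rw [map_sub, h1, sub_self]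
    exact sub_eq_zero.1 (A.eq_zero h3)
  by_contra hne
  apply hi
  rw [← h2, hc']
  rw [map_sum, Finsupp.finsetSum_apply]
  refine Finset.sum_eq_zero fun j _ => ?_
  by_cases hj : B.t j s = (p, q)
  · rw [if_pos hj, map_smul, Finsupp.smul_apply, B.v.repr_self]
    rw [Finsupp.single_eq_of_ne, smul_zero]
    rintro rfl
    exact hne hj
  · rw [if_neg hj, map_zero, Finsupp.zero_apply]

/-- The elements of the basis which are classes of type `(j, j)` for all conjugates. -/
def Good (i : ι) : Prop := ∀ s, (B.t i s).1 = (B.t i s).2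

omit [Fintype ι] in
lemma good_mem {i : ι} (hi : B.Good i) : ∃ j, B.v i ∈ HC D A Z j := by
  refine ⟨(B.t i 1).1, fun s => ?_⟩
  have h1 := B.mem i s
  have h2 := B.deg i s 1
  have h3 := hi s
  have h4 := hi 1
  have h5 : (B.t i s).1 = (B.t i 1).1 := by omega
  have h6 : (B.t i s).2 = (B.t i 1).1 := by omega
  rw [h6, h5] at h1
  exact h1

lemma span_eq : Submodule.span W.K {c | ∃ j, (pred D A).P Z j c} =
    Submodule.span W.K (Set.range fun x : {i // B.Good i} => B.v x.1) := by
  apply le_antisymm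
  · rw [Submodule.span_le]
    rintro c ⟨j, hc⟩
    change c ∈ Submodule.span W.K (Set.range fun x : {i // B.Good i} => B.v x.1)
    rw [← B.v.sum_repr c]
    refine Submodule.sum_mem _ fun i _ => ?_
    by_cases hi : B.v.repr c i = 0
    · rw [hi, zero_smul]
      exact Submodule.zero_mem _
    · refine Submodule.smul_mem _ _ (Submodule.subset_span ⟨⟨i, fun s => ?_⟩, rfl⟩)
      rw [B.supp (hc s) hi]
  · rw [Submodule.span_le]
    rintro _ ⟨⟨i, hi⟩, rfl⟩
    obtain ⟨j, hj⟩ := B.good_mem hi
    exact Submodule.subset_span ⟨j, hj⟩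

open Classical in
lemma hodgeDim_eq' : hodgeDim D A Z = Fintype.card {i // B.Good i} := by
  rw [hodgeDim, ← CM.span_eq, B.span_eq]
  exact finrank_span_eq_card (B.v.linearIndependent.comp _ Subtype.val_injective)

/-- The type. -/
def f (i : ι) (s : Γ) : ℤ := ((B.t i s).1 : ℤ) - (B.t i s).2

omit [Fintype ι] in
lemma good_iff (i : ι) : B.Good i ↔ B.f i = 0 := by
  constructor
  · intro h
    funext s
    rw [f, h s, sub_self]
    rfl
  · intro h s
    have h1 := congrFun h s
    rw [f, Pi.zero_apply] at h1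
    omega

lemma range_f : Set.range B.f = {f : Γ → ℤ | ∃ x ≠ 0, HasType D A Z x f} := by
  ext f
  constructor
  · rintro ⟨i, rfl⟩
    exact ⟨B.v i, B.v.ne_zero i, fun s => ⟨_, _, B.mem i s, rfl⟩⟩
  · rintro ⟨x, hx0, hx⟩
    obtain ⟨i, hi⟩ : ∃ i, B.v.repr x i ≠ 0 := by
      by_contra hcon
      push Not at hcon
      apply hx0
      apply B.v.repr.injective
      ext i
      rw [hcon, map_zero, Finsupp.zero_apply]
    refine ⟨i, ?_⟩
    funext s
    obtain ⟨p, q, h1, h2⟩ := hx s
    rw [h2, CM.TB.f, B.supp h1 hi]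

lemma hodgeRank_eq : Module.finrank ℤ (Submodule.span ℤ (Set.range B.f)) = hodgeRank D A Z := by
  rw [B.range_f, hodgeRank]

include B in
/-- The nondegeneracy of the trace pairing on the Hodge classes. -/
lemma nondeg {x : W.H Z} (hx : x ∈ Submodule.span W.K {c | ∃ j, (pred D A).P Z j c})
    (h : ∀ y ∈ Submodule.span W.K {c | ∃ j, (pred D A).P Z j c}, W.tr Z (x * y) = 0) : x = 0 := by
  classical
  apply W.nondeg
  intro b
  have key : (W.tr Z ∘ₗ LinearMap.mulLeft W.K x) = 0 := by
    refine B.v.ext fun i => ?_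
    change W.tr Z (x * B.v i) = 0
    by_cases hi : B.Good i
    · apply h
      obtain ⟨j, hj⟩ := B.good_mem hi
      exact Submodule.subset_span ⟨j, hj⟩
    · -- the pairing with the good elements vanishes
      rw [B.span_eq] at hx
      clear h
      induction hx using Submodule.span_induction with
      | zero => rw [zero_mul, map_zero]
      | add x y _ _ hx hy => rw [add_mul, map_add, hx, hy, add_zero]
      | smul c x _ hx => rw [smul_mul_assoc, map_smul, hx, smul_zero]
      | mem x hx =>
        obtain ⟨⟨l, hl⟩, rfl⟩ := hx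
        by_contra hne
        apply hi
        intro s
        have h1 : W.tr Z (A.act s Z (B.v l * B.v i)) ≠ 0 := by
          rw [A.tr]
          exact (map_ne_zero (A.tau s)).2 hne
        rw [A.mul] at h1
        by_contra hcon
        apply h1
        refine D.tr_zero (D.mul (B.mem l s) (B.mem i s)) fun h2 => hcon ?_
        have h3 := hl s
        omega
  exact congrArg (fun f => f b) key

/-- The sum of all types vanishes. -/
lemma sum_f [DecidableEq ι] : ∑ i, B.f i = 0 := by
  classical
  set G : Matrix ι ι W.K := fun i j => W.tr Z (B.v i * B.v j) with hG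
  have hdet : G.det ≠ 0 := by
    intro h0
    obtain ⟨c, hc, h⟩ := Matrix.exists_vecMul_eq_zero_iff.2 h0
    have h1 : ∑ i, c i • B.v i = 0 := by
      apply W.nondeg
      intro y
      have h2 : (W.tr Z ∘ₗ LinearMap.mulLeft W.K (∑ i, c i • B.v i)) = 0 := by
        refine B.v.ext fun j => ?_
        rw [LinearMap.comp_apply, LinearMap.mulLeft_apply, LinearMap.zero_apply, Finset.sum_mul,
          map_sum]
        have h3 := congrFun h j
        rw [Matrix.vecMul, dotProduct, Pi.zero_apply] at h3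
        rw [← h3]
        refine Finset.sum_congr rfl fun i _ => ?_
        rw [smul_mul_assoc, map_smul, smul_eq_mul]
      exact congrArg (fun f => f y) h2
    apply hc
    funext i
    exact Fintype.linearIndependent_iff.1 B.v.linearIndependent c h1 i
  obtain ⟨σ, -, hσ⟩ : ∃ σ ∈ (Finset.univ : Finset (Equiv.Perm ι)),
      Equiv.Perm.sign σ • ∏ i, G (σ i) i ≠ 0 := by
    rw [Matrix.det_apply] at hdet
    exact Finset.exists_ne_zero_of_sum_ne_zero hdet
  have hσ' : ∀ i, W.tr Z (B.v (σ i) * B.v i) ≠ 0 := by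
    intro i hi
    apply hσ
    have h1 : ∏ j, G (σ j) j = 0 :=
      Finset.prod_eq_zero (f := fun j => G (σ j) j) (Finset.mem_univ i) hi
    rw [h1, smul_zero]
  have hf : ∀ i, B.f (σ i) + B.f i = 0 := by
    intro i
    funext s
    have h1 : W.tr Z (A.act s Z (B.v (σ i) * B.v i)) ≠ 0 := by
      rw [A.tr]
      exact (map_ne_zero (A.tau s)).2 (hσ' i)
    rw [A.mul] at h1
    have h2 : (B.t (σ i) s).1 + (B.t i s).1 = Z.dim ∧ (B.t (σ i) s).2 + (B.t i s).2 = Z.dim := by
      by_contra hcon
      exact h1 (D.tr_zero (D.mul (B.mem _ s) (B.mem i s)) hcon)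
    rw [Pi.add_apply, Pi.zero_apply, f, f]
    omega
  have h1 : ∑ i, (B.f (σ i) + B.f i) = 0 := Finset.sum_eq_zero fun i _ => hf i
  rw [Finset.sum_add_distrib, Equiv.sum_comp σ B.f, ← two_smul ℤ] at h1
  funext s
  have h2 := congrFun h1 s
  rw [Pi.smul_apply, Pi.zero_apply, smul_eq_mul] at h2
  rw [Pi.zero_apply]
  omega

end General

section Words

variable {b : ℕ} (B : TB D A X (Fin b))

lemma word_mem (n : ℕ) (x : Fin (n + 1) → Fin b) (s : Γ) :
    A.act s (pw X n) (word B.v n x) ∈
      D.hd (pw X n) (∑ i, (B.t (x i) s).1) (∑ i, (B.t (x i) s).2) := by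
  induction n with
  | zero =>
    rw [word, List.ofFn_succ, List.ofFn_zero, List.prod_cons, List.prod_nil, mul_one,
      Fin.sum_univ_one, Fin.sum_univ_one, A.map]
    exact D.map _ (B.mem _ s)
  | succ n ih =>
    rw [word_succ, Fin.sum_univ_succ (fun i => (B.t (x i) s).1),
      Fin.sum_univ_succ (fun i => (B.t (x i) s).2)]
    have h1 := D.mul (D.map (fst X (pw X n)) (B.mem (x 0) s))
      (D.map (snd X (pw X n)) (ih fun i => x i.succ))
    rw [← A.map, ← A.map, ← A.mul] at h1
    exact h1

/-- The basis of the words. -/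
noncomputable def words (n : ℕ) : TB D A (pw X n) (Fin (n + 1) → Fin b) where
  v := (exists_word_basis B.v n).choose
  t x s := (∑ i, (B.t (x i) s).1, ∑ i, (B.t (x i) s).2)
  mem x s := by
    rw [(exists_word_basis B.v n).choose_spec]
    exact B.word_mem n x s

lemma words_f (n : ℕ) (x : Fin (n + 1) → Fin b) : (B.words n).f x = ∑ i, B.f (x i) := by
  funext s
  rw [Finset.sum_apply]
  simp only [f, words]
  push_cast
  rw [Finset.sum_sub_distrib]

end Words

end TB

/-- **The growth of the number of Hodge classes.** -/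
theorem hodge_growth (hX : IsCMType D A X) [Nontrivial (W.H X)] :
    ∃ C : ℝ, 0 < C ∧ Tendsto (fun n : ℕ => Real.sqrt (n + 1 : ℕ) ^ hodgeRank D A X *
      ((hodgeDim D A (pw X n) : ℝ) / (Module.finrank W.K (W.H X) : ℝ) ^ (n + 1)))
        atTop (𝓝 C) := by
  classical
  obtain ⟨B⟩ := exists_TB hX
  obtain ⟨u, hu1, hu2⟩ := GR.exists_lattice B.f B.hodgeRank_eq
  have htors : ∀ {κ : Type} [Fintype κ] (w : κ → Fin (Module.finrank W.K (W.H X))),
      ∑ k, u (w k) = 0 ↔ ∑ k, B.f (w k) = 0 := by
    intro κ _ w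
    rw [hu2]
    constructor
    · rintro ⟨m, hm, h⟩
      exact (smul_eq_zero.1 h).resolve_left hm.ne'
    · intro h
      exact ⟨1, one_pos, by rw [h, smul_zero]⟩
  have hcount : ∀ n, hodgeDim D A (pw X n) = GR.evenWalks u 1 (n + 1) := by
    intro n
    rw [(B.words n).hodgeDim_eq', Fintype.card_subtype, GR.evenWalks]
    congr 1
    ext x
    simp only [Finset.mem_filter, Finset.mem_univ, true_and]
    rw [(B.words n).good_iff, B.words_f, htors]
    simp
  obtain ⟨i₀, h₀⟩ : ∃ i, u i = 0 := by
    have h1 : 0 < hodgeDim D A (pw X 0) := by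
      rw [hodgeDim]
      have h2 : IsHodgeClass D A (pw X 0) 0 (1 : W.H X) := by
        have h3 : (1 : W.H X) = W.cl X X.V.fundCycle := (W.cl_fund X).symm
        constructor
        · intro s
          change A.act s X (1 : W.H X) = 1
          rw [h3]
          exact A.act_cl s X _
        · change (1 : W.H X) ∈ D.hd X 0 0
          rw [h3]
          exact D.cl X.V.fundCycle_mem
      have : Nontrivial (Submodule.span W.K {x | ∃ j, IsHodgeClass D A (pw X 0) j x}) := by
        refine ⟨⟨⟨(1 : W.H X), Submodule.subset_span ⟨0, h2⟩⟩, 0, fun h => ?_⟩⟩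
        exact (one_ne_zero : (1 : W.H X) ≠ 0) (congrArg Subtype.val h)
      exact Module.finrank_pos
    rw [hcount, GR.evenWalks, Finset.card_pos] at h1
    obtain ⟨x, hx⟩ := h1
    simp only [Finset.mem_filter, Finset.mem_univ, true_and] at hx
    rw [Fin.sum_univ_one] at hx
    exact ⟨x 0, hx.1⟩
  have hmean : ∑ i, u i = 0 := (htors (id : Fin _ → Fin _)).2 B.sum_f
  obtain ⟨C, hC, hlim⟩ := GR.evenWalks_tendsto u 1 i₀ h₀ rfl hu1 hmean
  refine ⟨C, hC, ?_⟩
  have h1 := hlim.comp (tendsto_add_atTop_nat 1)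
  refine h1.congr fun n => ?_
  simp only [Function.comp_apply, hcount, Fintype.card_fin]

end Pool.Agent.X297.CM
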